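import Pool.Agent.Work.MP_80ee1d_an.AlgB
import Pool.Agent.Work.MP_80ee1d_an.Eig
import Pool.Agent.Work.MP_80ee1d_an.BridgeB
import Pool.Agent.Work.MP_80ee1d_an.Lim
import Pool.Agent.Work.MP_80ee1d_an.Bound

-- merged part: Pool.Agent.Work.MP_80ee1d_an.U.Env
section
/-!
Real algebra of the linear system that describes the Nehari set.

PLAN. `sys_tendsto`: Cramer's rule, `s = (m2 Q a - β R b) / D`, `t = (m1 P b - β R a) / D`,
`D = m1 P (m2 Q) - (β R)²`; at the limit these are `s₀, t₀`; `D ≠ 0`, `s, t > 0` eventually.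
`envelope`: with the Cramer functions `s ε`, `t ε` (differentiable at `0`), the function
`e ε = s ε * a ε + t ε * b ε` has a local minimum at `0` (`IsLocalMin.hasDerivAt_eq_zero`).
Differentiating the two equations at `0` (they hold near `0`; `HasDerivAt.unique` with
`EventuallyEq.hasDerivAt_iff`), or writing `e ε / 4 = FF (data ε) (s ε) (t ε)` near `0` and using the
chain rule, the terms with `s'`, `t'` cancel and `e' / 4 = FF a' b' P' Q' R' s t`.
`mon_alg`: let `b = β R`, `b' = β ρ ≤ b`, `e = s x + t y`.  Identities: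
`m1 e - x² = t² (m1 m2 - b'²)`, `m2 e - y² = s² (m1 m2 - b'²)`, `m1 y - b' x = t (m1 m2 - b'²)`,
`m2 x - b' y = s (m1 m2 - b'²)`.
* `b'² ≤ m1 m2`: if `m1 y ≤ b x` use `S1`, if `m2 x ≤ b y` use `S2`.  Otherwise `b² < m1 m2`, Cramer
  gives `s', t' > 0` for `b`, and with `G b s t = 2 (s x + t y) - (m1 s² + 2 b s t + m2 t²)`:
  `s' x + t' y = G b s' t' ≤ G b' s' t' ≤ G b' s t = e` (the difference is the quadratic form with
  coefficients `m1, b', m2` at `(s' - s, t' - t)`, `AlgA_psd`).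
* `b'² > m1 m2`: then `m1 y < b x`, `m2 x < b y`, `b² > m1 m2`, Cramer gives `s', t' > 0`, and with
  `e' = s' x + t' y`, `A = m1 s² + 2 b s t + m2 t² ≥ e`: `e² - A e' = (b² - m1 m2)(s t' - t s')² ≥ 0`.
-/

open Filter Topology

namespace CritSys

variable {m1 m2 β : ℝ}

/-- `(√s u, √t v)` lies on the Nehari set, in terms of the five numbers attached to `(u, v)`. -/
def Sys (m1 m2 β a b P Q R s t : ℝ) : Prop :=
  0 < s ∧ 0 < t ∧ a = m1 * P * s + β * R * t ∧ b = β * R * s + m2 * Q * t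

theorem Sys.swap {a b P Q R s t : ℝ} (h : Sys m1 m2 β a b P Q R s t) :
    Sys m2 m1 β b a Q P R t s :=
  ⟨h.2.1, h.1, by rw [h.2.2.2]; ring, by rw [h.2.2.1]; ring⟩

/-- the first unknown by Cramer's rule -/
noncomputable def Env_s (m1 m2 β a b P Q R : ℝ) : ℝ :=
  (m2 * Q * a - β * R * b) / (m1 * P * (m2 * Q) - (β * R) ^ 2)

theorem Env_eq {a b P Q R s t : ℝ} (h : Sys m1 m2 β a b P Q R s t)
    (hd : (β * R) ^ 2 ≠ m1 * P * (m2 * Q)) : Env_s m1 m2 β a b P Q R = s := by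
  rw [Env_s, div_eq_iff (sub_ne_zero.2 hd.symm), h.2.2.1, h.2.2.2]
  ring

theorem Env_sys {a b P Q R : ℝ} (hd : (β * R) ^ 2 ≠ m1 * P * (m2 * Q))
    (hs : 0 < Env_s m1 m2 β a b P Q R) (ht : 0 < Env_s m2 m1 β b a Q P R) :
    Sys m1 m2 β a b P Q R (Env_s m1 m2 β a b P Q R) (Env_s m2 m1 β b a Q P R) := by
  have h := sub_ne_zero.2 hd.symm
  refine ⟨hs, ht, ?_, ?_⟩ <;>
  · rw [Env_s, Env_s, mul_comm (m2 * Q) (m1 * P), ← mul_div_assoc, ← mul_div_assoc, ← add_div,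
      eq_div_iff h]
    ring

theorem Env_lim {ι : Type} {F : Filter ι} {a b P Q R : ι → ℝ} {a₀ b₀ P₀ Q₀ R₀ s₀ t₀ : ℝ}
    (ha : Tendsto a F (𝓝 a₀)) (hb : Tendsto b F (𝓝 b₀)) (hP : Tendsto P F (𝓝 P₀))
    (hQ : Tendsto Q F (𝓝 Q₀)) (hR : Tendsto R F (𝓝 R₀)) (h : Sys m1 m2 β a₀ b₀ P₀ Q₀ R₀ s₀ t₀)
    (hd : (β * R₀) ^ 2 ≠ m1 * P₀ * (m2 * Q₀)) :
    Tendsto (fun i => Env_s m1 m2 β (a i) (b i) (P i) (Q i) (R i)) F (𝓝 s₀) := by
  rw [← Env_eq h hd]
  exact (((hQ.const_mul m2).mul ha).sub ((hR.const_mul β).mul hb)).div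
    (((hP.const_mul m1).mul (hQ.const_mul m2)).sub ((hR.const_mul β).pow 2)) (sub_ne_zero.2 hd.symm)

theorem Env_ev {ι : Type} {F : Filter ι} {a b P Q R : ι → ℝ} {a₀ b₀ P₀ Q₀ R₀ s₀ t₀ : ℝ}
    (ha : Tendsto a F (𝓝 a₀)) (hb : Tendsto b F (𝓝 b₀)) (hP : Tendsto P F (𝓝 P₀))
    (hQ : Tendsto Q F (𝓝 Q₀)) (hR : Tendsto R F (𝓝 R₀)) (h : Sys m1 m2 β a₀ b₀ P₀ Q₀ R₀ s₀ t₀)
    (hd : (β * R₀) ^ 2 ≠ m1 * P₀ * (m2 * Q₀)) :
    ∀ᶠ i in F, (β * R i) ^ 2 ≠ m1 * P i * (m2 * Q i) ∧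
      Sys m1 m2 β (a i) (b i) (P i) (Q i) (R i) (Env_s m1 m2 β (a i) (b i) (P i) (Q i) (R i))
        (Env_s m2 m1 β (b i) (a i) (Q i) (P i) (R i)) := by
  filter_upwards [(Env_lim ha hb hP hQ hR h hd).eventually (lt_mem_nhds h.1),
    (Env_lim hb ha hQ hP hR h.swap (mul_comm (m1 * P₀) _ ▸ hd)).eventually (lt_mem_nhds h.2.1),
    (((hR.const_mul β).pow 2).sub ((hP.const_mul m1).mul (hQ.const_mul m2))).eventually_ne
      (sub_ne_zero.2 hd)] with i h1 h2 h3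
  exact ⟨sub_ne_zero.1 h3, Env_sys (sub_ne_zero.1 h3) h1 h2⟩

theorem Env_val {a b P Q R s t : ℝ} (h : Sys m1 m2 β a b P Q R s t) :
    FF m1 m2 β a b P Q R s t = (s * a + t * b) / 4 := by
  unfold FF
  linear_combination (s / 4) * h.2.2.1 + (t / 4) * h.2.2.2

theorem sys_tendsto {ι : Type} {F : Filter ι} {a b P Q R : ι → ℝ} {a₀ b₀ P₀ Q₀ R₀ s₀ t₀ : ℝ}
    (ha : Tendsto a F (𝓝 a₀)) (hb : Tendsto b F (𝓝 b₀)) (hP : Tendsto P F (𝓝 P₀))
    (hQ : Tendsto Q F (𝓝 Q₀)) (hR : Tendsto R F (𝓝 R₀)) (h : Sys m1 m2 β a₀ b₀ P₀ Q₀ R₀ s₀ t₀)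
    (hd : (β * R₀) ^ 2 ≠ m1 * P₀ * (m2 * Q₀)) :
    ∃ s t : ι → ℝ, Tendsto s F (𝓝 s₀) ∧ Tendsto t F (𝓝 t₀) ∧
      ∀ᶠ i in F, Sys m1 m2 β (a i) (b i) (P i) (Q i) (R i) (s i) (t i) := by
  exact ⟨_, _, Env_lim ha hb hP hQ hR h hd, Env_lim hb ha hQ hP hR h.swap
    (mul_comm (m1 * P₀) _ ▸ hd), (Env_ev ha hb hP hQ hR h hd).mono fun _ h => h.2⟩

theorem envelope {a b P Q R : ℝ → ℝ} {a' b' P' Q' R' s t : ℝ}
    (ha : HasDerivAt a a' 0) (hb : HasDerivAt b b' 0) (hP : HasDerivAt P P' 0)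
    (hQ : HasDerivAt Q Q' 0) (hR : HasDerivAt R R' 0)
    (h : Sys m1 m2 β (a 0) (b 0) (P 0) (Q 0) (R 0) s t)
    (hd : (β * R 0) ^ 2 ≠ m1 * P 0 * (m2 * Q 0))
    (hlow : ∀ᶠ ε in 𝓝 (0 : ℝ), ∀ s' t', Sys m1 m2 β (a ε) (b ε) (P ε) (Q ε) (R ε) s' t' →
      (β * R ε) ^ 2 ≠ m1 * P ε * (m2 * Q ε) → s * a 0 + t * b 0 ≤ s' * a ε + t' * b ε) :
    FF m1 m2 β a' b' P' Q' R' s t = 0 := by
  have hd' : (β * R 0) ^ 2 ≠ m2 * Q 0 * (m1 * P 0) := mul_comm (m1 * P 0) _ ▸ hd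
  have key : ∀ {m1 m2 : ℝ} {a b P Q : ℝ → ℝ}, DifferentiableAt ℝ a 0 → DifferentiableAt ℝ b 0 →
      DifferentiableAt ℝ P 0 → DifferentiableAt ℝ Q 0 → (β * R 0) ^ 2 ≠ m1 * P 0 * (m2 * Q 0) →
      ∃ d, HasDerivAt (fun ε => Env_s m1 m2 β (a ε) (b ε) (P ε) (Q ε) (R ε)) d 0 :=
    fun ha hb hP hQ hd => ⟨_, DifferentiableAt.hasDerivAt (by
      have := hR.differentiableAt
      exact DifferentiableAt.fun_div (by fun_prop) (by fun_prop) (sub_ne_zero.2 hd.symm))⟩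
  obtain ⟨s', hs⟩ := key ha.differentiableAt hb.differentiableAt hP.differentiableAt
    hQ.differentiableAt hd
  obtain ⟨t', ht⟩ := key hb.differentiableAt ha.differentiableAt hQ.differentiableAt
    hP.differentiableAt hd'
  have h4 := (((hs.fun_mul ha).fun_add (ht.fun_mul hb)).div_const 2).fun_sub
    (((((hP.const_mul m1).fun_mul (hs.fun_pow 2)).fun_add
      (((hR.const_mul (2 * β)).fun_mul hs).fun_mul ht)).fun_add
        ((hQ.const_mul m2).fun_mul (ht.fun_pow 2))).div_const 4)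
  have h5 := IsLocalMin.hasDerivAt_eq_zero (f := fun ε => FF m1 m2 β (a ε) (b ε) (P ε) (Q ε) (R ε)
    (Env_s m1 m2 β (a ε) (b ε) (P ε) (Q ε) (R ε)) (Env_s m2 m1 β (b ε) (a ε) (Q ε) (P ε) (R ε)))
    (by
      filter_upwards [hlow, Env_ev ha.continuousAt hb.continuousAt hP.continuousAt hQ.continuousAt
        hR.continuousAt h hd] with ε h1 h2
      rw [Env_eq h hd, Env_eq h.swap hd', Env_val h, Env_val h2.2]
      linarith only [h1, h2, h1 _ _ h2.2 h2.1]) h4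
  rw [Env_eq h hd, Env_eq h.swap hd'] at h5
  unfold FF
  push_cast at h5
  linear_combination h5 - (s' / 2) * h.2.2.1 - (t' / 2) * h.2.2.2

theorem mon_alg (h1 : 0 < m1) (h2 : 0 < m2) (hβ : 0 ≤ β) {x y ρ R s t c : ℝ} (hρ : 0 ≤ ρ)
    (hR : ρ ≤ R) (h : Sys m1 m2 β x y 1 1 ρ s t)
    (S1 : m1 * y ≤ β * R * x → c * m1 ≤ x ^ 2) (S2 : m2 * x ≤ β * R * y → c * m2 ≤ y ^ 2)
    (N : ∀ s' t', Sys m1 m2 β x y 1 1 R s' t' → (β * R) ^ 2 ≠ m1 * 1 * (m2 * 1) →
      c ≤ s' * x + t' * y) : c ≤ s * x + t * y := by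
  obtain ⟨hs, ht, hx, hy⟩ := h
  have b0 : 0 ≤ β * ρ := mul_nonneg hβ hρ
  have b1 : β * ρ ≤ β * R := mul_le_mul_of_nonneg_left hR hβ
  have x0 : 0 < x := by rw [hx]; positivity
  have y0 : 0 < y := by rw [hy]; positivity
  have hst := mul_pos hs ht
  rcases le_or_gt ((β * ρ) ^ 2) (m1 * m2) with hb | hb
  · by_cases c1 : m1 * y ≤ β * R * x
    · refine le_of_mul_le_mul_right ((S1 c1).trans ?_) h1
      have := mul_nonneg (sq_nonneg t) (sub_nonneg.2 hb)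
      rw [hx, hy]
      linarith only [this]
    by_cases c2 : m2 * x ≤ β * R * y
    · refine le_of_mul_le_mul_right ((S2 c2).trans ?_) h2
      have := mul_nonneg (sq_nonneg s) (sub_nonneg.2 hb)
      rw [hx, hy]
      linarith only [this]
    have hD : (β * R) ^ 2 < m1 * 1 * (m2 * 1) := by
      have k := mul_lt_mul'' (not_le.1 c1) (not_le.1 c2) (mul_nonneg (b0.trans b1) x0.le)
        (mul_nonneg (b0.trans b1) y0.le)
      exact lt_of_mul_lt_mul_right (a := x * y) (by linarith) (mul_pos x0 y0).le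
    have k := Env_sys (a := x) (b := y) hD.ne (div_pos (by linarith) (by linarith))
      (div_pos (by linarith) (by linarith))
    refine (N _ _ k hD.ne).trans ?_
    generalize Env_s m1 m2 β x y 1 1 R = s' at k
    generalize Env_s m2 m1 β y x 1 1 R = t' at k
    obtain ⟨hs', ht', hx', hy'⟩ := k
    have k1 := AlgA_psd h1.le h2.le hb (s - s') (t - t')
    have k2 := mul_le_mul_of_nonneg_right b1 (mul_pos hs' ht').le
    have k3 : s' * x + t' * y = m1 * s' ^ 2 + 2 * (β * R * (s' * t')) + m2 * t' ^ 2 := by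
      linear_combination s' * hx' + t' * hy'
    rw [hx, hy] at k3 ⊢
    linarith only [k1, k2, k3]
  · have hD : m1 * 1 * (m2 * 1) < (β * R) ^ 2 := by linarith [pow_le_pow_left₀ b0 b1 2]
    have c1 : m1 * y < β * R * x := by
      have k1 := mul_pos ht (sub_pos.2 hb)
      refine lt_of_lt_of_le ?_ (mul_le_mul_of_nonneg_right b1 x0.le)
      rw [hx, hy]
      linarith
    have c2 : m2 * x < β * R * y := by
      have k1 := mul_pos hs (sub_pos.2 hb)
      refine lt_of_lt_of_le ?_ (mul_le_mul_of_nonneg_right b1 y0.le)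
      rw [hx, hy]
      linarith
    have k := Env_sys (a := x) (b := y) hD.ne' (div_pos_of_neg_of_neg (by linarith) (by linarith))
      (div_pos_of_neg_of_neg (by linarith) (by linarith))
    refine (N _ _ k hD.ne').trans ?_
    generalize Env_s m1 m2 β x y 1 1 R = s' at k
    generalize Env_s m2 m1 β y x 1 1 R = t' at k
    obtain ⟨hs', ht', hx', hy'⟩ := k
    have e0 : 0 < s * x + t * y := by positivity
    have k1 : s * x + t * y ≤ m1 * s ^ 2 + 2 * (β * R * (s * t)) + m2 * t ^ 2 := by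
      have := mul_le_mul_of_nonneg_right b1 hst.le
      rw [hx, hy]
      linarith only [this]
    have k2 : (m1 * s ^ 2 + 2 * (β * R * (s * t)) + m2 * t ^ 2) * (s' * x + t' * y) ≤
        (s * x + t * y) * (s * x + t * y) := by
      have := mul_nonneg (sub_pos.2 hD).le (sq_nonneg (s * t' - t * s'))
      rw [hx', hy']
      linarith only [this]
    exact le_of_mul_le_mul_left (k2.trans (mul_le_mul_of_nonneg_right k1 e0.le)) (e0.trans_le k1)

end CritSys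
end

-- merged part: Pool.Agent.Work.MP_80ee1d_an.V.Nec
section
/-!
Ranges of couplings that do not depend on the domain, with their end points.

PLAN. `L1 = Λ + l1 < L2 = Λ + l2`.  If `L2 q l1 u ≤ L1 q l2 u` then `‖u‖² ≤ Λ M u u` (the difference is
`(l2 - l1)(‖u‖² - Λ M u u)`), so `⟪u, ψ⟫ = Λ M u ψ` (`eig_of_min`) and `B l u ψ = (Λ + l) M u ψ`.
`nec_low`: `β < m2`, so `β² < m1 m2`; use `alt`.  Second case: `picone_sol1`,
`m1 R ≤ q l1 v < q l2 v ≤ β R ≤ m1 R`.  Third case: replace `u` by its absolute value (`exists_abs`);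
`L1 m2 R ≤ L1 q l2 u ≤ L2 q l1 u ≤ L2 β R ≤ L1 m2 R`, so `u` is a first eigenfunction, positive by
`pos_of_eqn` (`l = -Λ`, `m = β = 0`), and `ε ↦ q l2 (u + ε ψ) - m2 R w (u + ε ψ) ≥ 0` vanishes at `0`
(`hasDerivAt_q`, `hasDerivAt_R2`, `IsLocalMin.hasDerivAt_eq_zero`), so `L2 M u ψ = m2 T w w u ψ`,
against `NC` with `b = 0`.
`nec_up`: `least_exists`.  If `q l1 w1 ≤ q l2 w2` use `upper` with `y = w1`:
`L1 q l2 w1 ≤ L2 q l1 w1 = L2 m1 P ≤ L1 β P`, and equality makes `w1` a first eigenfunction with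
`L1 M w1 ψ = m1 T w1 w1 w1 ψ`, against `NC`.  Otherwise `upper` with the indices swapped (`GS_swap`),
`y = w2`: `q l1 w2 < q l2 w2 = m2 P ≤ β P`.
`nec_mid`: `picone_eqn` for `v` tested with `u`:
`L1 (m2 R + β P) ≤ L1 q l2 u ≤ L2 q l1 u = L2 (m1 P + β R) ≤ L1 (β P + m2 R)`, so `u` is a first
eigenfunction and `L1 M u ψ = m1 T u u u ψ + β T v v u ψ`, against `NC`.
-/

open MeasureTheory Filter Topology
open scoped RealInnerProductSpace

noncomputable section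
namespace CritSys
namespace Ctx

variable {X : Type} [MeasurableSpace X] {H : Type} [NormedAddCommGroup H] [InnerProductSpace ℝ H]
  [CompleteSpace H] [TopologicalSpace.SeparableSpace H] {μ : Measure X} [IsFiniteMeasure μ]
  (C : Ctx H μ) {l1 l2 m1 m2 β : ℝ}

/-- A combination `a v² + b w²` is never a positive constant. -/
def NC : Prop := ∀ (u v w : H) (a b c : ℝ), C.Pos u → 0 ≤ a → 0 ≤ b → 0 < c →
  ¬ ∀ ψ, c * C.M u ψ = a * C.T v v u ψ + b * C.T w w u ψ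

omit [CompleteSpace H] [TopologicalSpace.SeparableSpace H] in
/-- Equality in `q_ratio` characterises first eigenfunctions. -/
theorem Nec_eig (hl : l1 < l2) {u : H} (h : (C.Λ + l2) * C.q l1 u ≤ (C.Λ + l1) * C.q l2 u)
    (l : ℝ) (ψ : H) : C.B l u ψ = (C.Λ + l) * C.M u ψ := by
  have h1 : (l2 - l1) * ‖u‖ ^ 2 ≤ (l2 - l1) * (C.Λ * C.M u u) := by
    rw [q, q] at h
    linarith
  rw [B, C.eig_of_min (le_of_mul_le_mul_left h1 (sub_pos.2 hl))]
  ring

omit [CompleteSpace H] [TopologicalSpace.SeparableSpace H] in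
theorem Nec_lt (hl : l1 < l2) {u : H} (hu : u ≠ 0) : C.q l1 u < C.q l2 u := by
  have := mul_pos (sub_pos.2 hl) (C.M_pos hu)
  linarith [C.q_sub_q l1 l2 u]

theorem nec_low (hN : C.NC) (a1 : C.Adm l1) (a2 : C.Adm l2) (hl : l1 < l2) (h1 : 0 < m1)
    (h2 : 0 < m2) (hβ : 0 ≤ β) (e1 : β ≤ m1) (e2 : β * (C.Λ + l2) ≤ (C.Λ + l1) * m2) :
    C.GS l1 l2 m1 m2 β := by
  have L1 : 0 < C.Λ + l1 := by linarith [a1.1]
  have L2 : 0 < C.Λ + l2 := by linarith
  have hb : β < m2 := by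
    refine lt_of_mul_lt_mul_right (e2.trans_lt ?_) L2.le
    rw [mul_comm]
    exact mul_lt_mul_of_pos_left (by linarith) h2
  have hd : β ^ 2 < m1 * m2 := by
    rw [sq]
    exact (mul_le_mul_of_nonneg_right e1 hβ).trans_lt (mul_lt_mul_of_pos_left hb h1)
  rcases C.alt a1 a2 h1 h2 hβ hd with h | ⟨w, v, hs, hp, hv, hq, -⟩ | ⟨w, u0, hs, hp, hu0, hq0, -⟩
  · exact h
  · have k1 := C.picone_sol1 hs hp v
    have k2 := C.Nec_lt hl hv
    have k3 := mul_le_mul_of_nonneg_right e1 (C.R_nonneg w v)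
    exact absurd k2 (by linarith)
  · obtain ⟨u, -, hn, hu, -, -, hq1, -, -, hR⟩ := C.exists_abs u0
    have hq : C.q l1 u ≤ β * C.R w u := by
      rw [hR]
      exact (hq1 l1).trans hq0
    have k1 := C.picone_sol1 hs hp
    have k2 := C.q_ratio hl.le u
    have k3 := mul_le_mul_of_nonneg_left hq L2.le
    have k4 := mul_le_mul_of_nonneg_right e2 (C.R_nonneg w u)
    have k5 := mul_le_mul_of_nonneg_left (k1 u) L1.le
    have he := C.Nec_eig hl (u := u) (by linarith)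
    have k6 : C.q l2 u ≤ m2 * C.R w u := le_of_mul_le_mul_left (by linarith) L1
    have hpos : C.Pos u := C.pos_of_eqn (l := -C.Λ) (m := 0) (β := 0) (v := 0)
      (fun ψ => by rw [he]; ring) (by linarith [C.Lam_pos]) le_rfl le_rfl hn (hu hu0)
    refine (hN u w w m2 0 _ hpos h2.le le_rfl L2 fun ψ => ?_).elim
    have h0 : IsLocalMin (fun ε : ℝ => C.q l2 (u + ε • ψ) - m2 * C.R w (u + ε • ψ)) 0 := by
      refine Eventually.of_forall fun ε => ?_
      have := k1 (u + ε • ψ)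
      simp only [zero_smul, add_zero]
      linarith
    have h3 := h0.hasDerivAt_eq_zero
      ((C.hasDerivAt_q l2 u ψ).sub ((C.hasDerivAt_R2 w u ψ).const_mul m2))
    rw [he] at h3
    linarith

theorem nec_up (hN : C.NC) (a1 : C.Adm l1) (a2 : C.Adm l2) (hl : l1 < l2) (h1 : 0 < m1)
    (h2 : 0 < m2) (e1 : m2 ≤ β) (e2 : m1 * (C.Λ + l2) ≤ β * (C.Λ + l1)) :
    C.GS l1 l2 m1 m2 β := by
  have L1 : 0 < C.Λ + l1 := by linarith [a1.1]
  have hβ : 0 ≤ β := h2.le.trans e1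
  obtain ⟨w1, hw1⟩ := C.least_exists a1 h1
  obtain ⟨w2, hw2⟩ := C.least_exists a2 h2
  rcases le_total (C.q l1 w1) (C.q l2 w2) with h | h
  · refine C.upper a1 a2 h1 h2 hβ hw1 hw2 h (y := w1) (not_le.1 fun hc => ?_)
    rw [R_self] at hc
    have k1 := mul_le_mul_of_nonneg_left hc L1.le
    have k2 := mul_le_mul_of_nonneg_right e2 (C.P_nonneg w1)
    have he := C.Nec_eig hl (u := w1) (by rw [hw1.1.q_eq]; linarith)
    refine hN w1 w1 w1 m1 0 _ hw1.2.1 h1.le le_rfl L1 fun ψ => ?_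
    rw [← he, hw1.1 ψ]
    ring
  · refine (C.GS_swap _ _ _ _ _).2 (C.upper a2 a1 h2 h1 hβ hw2 hw1 h (y := w2) ?_)
    have k1 := C.Nec_lt hl hw2.2.1.ne_zero
    have k2 := mul_le_mul_of_nonneg_right e1 (C.P_nonneg w2)
    rw [R_self]
    linarith [hw2.1.q_eq]

theorem nec_mid (hN : C.NC) (a1 : C.Adm l1) (a2 : C.Adm l2) (hl : l1 < l2) (h1 : 0 < m1)
    (e1 : m1 * (C.Λ + l2) ≤ β * (C.Λ + l1)) (e2 : β * (C.Λ + l2) ≤ (C.Λ + l1) * m2) :
    ¬ C.GS l1 l2 m1 m2 β := by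
  rintro ⟨u, v, eu, ev, pu, pv, -⟩
  have L1 : 0 < C.Λ + l1 := by linarith [a1.1]
  have L2 : 0 < C.Λ + l2 := by linarith [a2.1]
  have hβ : 0 < β := (mul_pos_iff_of_pos_right L1).1 ((mul_pos h1 L2).trans_le e1)
  have k1 := mul_le_mul_of_nonneg_left (C.picone_eqn ev pv u) L1.le
  rw [R_self, C.R_comm v u] at k1
  have k2 := mul_le_mul_of_nonneg_right e1 (C.P_nonneg u)
  have k3 := mul_le_mul_of_nonneg_right e2 (C.R_nonneg u v)
  have he := C.Nec_eig hl (u := u) (by rw [eu.q_eq]; linarith)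
  exact hN u u v m1 β _ pu h1.le hβ.le L1 fun ψ => (he l1 ψ).symm.trans (eu ψ)

end Ctx
end CritSys
end
end

-- merged part: Pool.Agent.Work.MP_80ee1d_an.V.Rig
section
/-!
On a domain, `a v² + b w²` is not a positive constant.

PLAN. For a test function `f` supported in `Ω` take `ψ = mkK d (ofT f) _`; `inst_V` with the coefficients
`c, -a, -b` gives `∫_Ω (c - a v² - b w²) u f = 0`.  The function `(c - a v² - b w²) u` is integrable on `Ω`
(`T4_integrable` with `oneL`), so it vanishes almost everywhere in `Ω`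
(`IsOpen.ae_eq_zero_of_integral_contDiff_smul_eq_zero`), and `u > 0` gives `a v² + b w² = c`.
With `v', w'` from `K_abs`, `z = v' + w'` satisfies `val z = |v| + |w| ≥ c' = √(c / (a + b + 1)) > 0` almost
everywhere in `Ω`.  `G t = Real.smoothTransition (2 t / c')` is smooth, `G 0 = 0`, `G t = 1` and
`deriv G t = 0` for `t > c' / 2`, `deriv G t = 0` for `t < 0`, so `deriv G` is bounded (continuous on
`[0, c']`).  `comp_D` gives `y ∈ H0 Ω` with `val y = G (val z)` and `grd y = 0` almost everywhere (inside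
`Ω` the derivative vanishes, outside `H0_zero_outside`), so `y = 0` (`D_ext`, or `norm_sq_D`), while
`val y = 1` almost everywhere in `Ω`, against `K_mu_ne`.
-/

open MeasureTheory Filter Topology
open scoped ContDiff RealInnerProductSpace

noncomputable section
namespace CritSys

theorem Rig_low {a b c p q : ℝ} (ha : 0 ≤ a) (hb : 0 ≤ b)
    (h : c + -a * (p * p) + -b * (q * q) = 0) : √(c / (a + b + 1)) ≤ |p| + |q| := by
  have h1 := abs_nonneg p
  have h2 := abs_nonneg q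
  rw [Real.sqrt_le_left (add_nonneg h1 h2), div_le_iff₀ (by linarith)]
  rw [← abs_mul_abs_self p, ← abs_mul_abs_self q] at h
  linarith only [h, ha, hb, h1, h2, mul_nonneg h1 h2, mul_nonneg h1 h1, mul_nonneg h2 h2,
    mul_nonneg (add_nonneg ha hb) (mul_nonneg h1 h2), mul_nonneg ha (mul_nonneg h2 h2),
    mul_nonneg hb (mul_nonneg h1 h1), sq_nonneg (|p| + |q|)]

theorem ctx_NC (d : Dom) : (ctx d).NC := by
  intro u v w a b c hu ha hb hc h
  have hm := d.isOpen.measurableSet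
  have hi : IntegrableOn (fun x => (c + -a * (valK d v x * valK d v x) +
      -b * (valK d w x * valK d w x)) * val (incl d u) x) d.Ω := by
    refine ((((T4_integrable (oneL d.μ) (oneL d.μ) (valK d u) (oneL d.μ)).const_mul c).add
      ((T4_integrable (valK d v) (valK d v) (valK d u) (oneL d.μ)).const_mul (-a))).add
      ((T4_integrable (valK d w) (valK d w) (valK d u) (oneL d.μ)).const_mul (-b))).congr ?_
    filter_upwards [oneL_ae (μ := d.μ), valK_ae d u] with x h1 h2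
    simp only [Pi.add_apply]
    rw [h1, h2]
    ring
  have h0 := d.isOpen.ae_eq_zero_of_integral_contDiff_smul_eq_zero hi.locallyIntegrableOn
    fun g hg hk hs => by
      have hf := ofT_mem_H0 (f := ⟨g, hg, hk⟩) hs
      have e := inst_V d c (-a) (-b) (valK d v) (valK d w) u (mkK d _ hf)
      have e' : c * T4 (oneL d.μ) (oneL d.μ) (valK d u) (valK d (mkK d _ hf)) =
        a * T4 (valK d v) (valK d v) (valK d u) (valK d (mkK d _ hf)) +
          b * T4 (valK d w) (valK d w) (valK d u) (valK d (mkK d _ hf)) := h _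
      rw [← setIntegral_eq_integral_of_forall_compl_eq_zero (s := d.Ω) fun x hx => by
        rw [image_eq_zero_of_notMem_tsupport fun h => hx (hs h), zero_smul]]
      refine Eq.trans (integral_congr_ae ?_) (e.symm.trans (by linarith only [hg, hk, hf, e']))
      filter_upwards [ae_restrict_of_ae (s := d.Ω) (val_ofT ⟨g, hg, hk⟩)] with x h3
      rw [incl_mkK, h3, smul_eq_mul, mul_comm]
  obtain ⟨v', hv, -⟩ := K_abs d v
  obtain ⟨w', hw, -⟩ := K_abs d w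
  refine no_lower_bound d.isOpen d.conn.nonempty (incl_mem d (v' + w'))
    (Real.sqrt_pos.2 (div_pos hc (by linarith : 0 < a + b + 1))) ((ae_restrict_iff' hm).1 ?_)
  filter_upwards [(ae_restrict_iff' hm).2 h0, hu, valK_ae d u, valK_ae d (v' + w'),
    Lp.coeFn_add (valK d v') (valK d w'), Lp.coeFn_abs (valK d v), Lp.coeFn_abs (valK d w)]
    with x h1 h2 h3 h4 h5 h6 h7
  rw [← h4, map_add, h5, Pi.add_apply, hv, hw, h6, h7]
  exact Rig_low ha hb ((mul_eq_zero.1 h1).resolve_right (h3 ▸ h2.ne'))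


end CritSys
end
end

-- merged part: Pool.Agent.Work.MP_80ee1d_an.U.Mon
section
/-!
Upper bounds for the ground state level.

PLAN. `osc_to`: `κ = (Λ + l) / Λ > 0`, `q l a ≥ κ ‖a‖²` (`q_lower`).  Choose `ρ₀ > 0` with
`κ (ρ₀ - ‖z‖)² ≥ x`, `ρ₀ ≥ ‖z‖`, then `h` from `C.osc (η / ρ₀)`; `‖z + ρ₀ • h‖ ≥ ρ₀ - ‖z‖`;
`intermediate_value_Icc` for `ρ ↦ q l (z + ρ • h)` on `[0, ρ₀]` (`continuous_q`).
`osc_seq`: `η = 1 / (n + 1)`.  `P` and `R` are continuous in `val` (`T4_tendsto`).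
`lb_limit`: `sys_tendsto`; `u n ≠ 0` eventually since `P (u n) → P > 0` (`P_zero`); `neh_sqrt`,
`q_smul`, `Real.sq_sqrt`; pass to the limit (`ge_of_tendsto`).
`semi1`: `y ≥ q l2 w > 0`, `x > 0`, so `β R > 0`.  For `δ > 0` take `u n` from `osc_seq` with
`q l1 (u n) = x + δ`; eventually `m1 P (u n) q l2 w < β R (u n) w (x + δ)`.  Scale `u n` to the scalar
Nehari set, `z' = √((x + δ) / (m1 P (u n))) • u n`; `bound_core` with the indices swapped gives Nehari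
points of energy `≤ q l1 z' / 4 + η`, so `c ≤ (x + δ)² / (m1 P (u n))` (`Neh.swap`, `Neh.En_eq`).
Let `n → ∞`, `δ → 0`.  `semi2`: swap.  `mon`: `mon_alg` with `semi1`, `semi2`, and `lb_limit` along
the two sequences of `osc_seq`.
-/

open MeasureTheory Filter Topology
open scoped RealInnerProductSpace

noncomputable section
namespace CritSys
namespace Ctx

variable {X : Type} [MeasurableSpace X] {H : Type} [NormedAddCommGroup H] [InnerProductSpace ℝ H]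
  {μ : Measure X} [IsFiniteMeasure μ] (C : Ctx H μ) {l1 l2 m1 m2 β c : ℝ}

/-- `c / 4` is a lower bound of the energy on the Nehari set. -/
def LB (l1 l2 m1 m2 β c : ℝ) : Prop :=
  ∀ u v, C.Neh l1 l2 m1 m2 β u v → c ≤ C.q l1 u + C.q l2 v

theorem LB.swap {C : Ctx H μ} (h : C.LB l1 l2 m1 m2 β c) : C.LB l2 l1 m2 m1 β c := fun u v hn => by
  have := h v u hn.swap
  linarith

theorem osc_to {l : ℝ} (a : C.Adm l) (z : H) {x : ℝ} (hx : C.q l z ≤ x) {η : ℝ} (hη : 0 < η) :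
    ∃ z', C.q l z' = x ∧ ‖C.val z' - C.val z‖ ≤ η := by
  have hκ : 0 < (C.Λ + l) / C.Λ := div_pos (by linarith [a.1]) C.Lam_pos
  set κ := (C.Λ + l) / C.Λ with hκd
  obtain ⟨r, hr0, hr⟩ : ∃ r : ℝ, 0 < r ∧ x ≤ κ * r ^ 2 := by
    refine ⟨|x| / κ + 1, by positivity, ?_⟩
    have h1 : κ * (|x| / κ) = |x| := mul_div_cancel₀ _ hκ.ne'
    have h2 : 0 ≤ |x| / κ := by positivity
    have h3 := le_abs_self x
    nlinarith [mul_nonneg hκ.le (sq_nonneg (|x| / κ))]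
  have hρ : 0 < r + ‖z‖ := by positivity
  obtain ⟨h, hh1, hh2⟩ := C.osc (η / (r + ‖z‖)) (div_pos hη hρ)
  have hc : Continuous fun ρ : ℝ => C.q l (z + ρ • h) :=
    (C.continuous_q l).comp (by fun_prop)
  have hn : r ≤ ‖z + (r + ‖z‖) • h‖ := by
    have h1 : ‖(r + ‖z‖) • h‖ = r + ‖z‖ := by
      rw [norm_smul, hh1, mul_one, Real.norm_of_nonneg hρ.le]
    have h2 : ‖(r + ‖z‖) • h‖ ≤ ‖z + (r + ‖z‖) • h‖ + ‖z‖ := by
      simpa using norm_sub_le (z + (r + ‖z‖) • h) z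
    linarith
  have hup : x ≤ C.q l (z + (r + ‖z‖) • h) := by
    refine hr.trans (le_trans ?_ (C.q_lower a.2.le _))
    exact mul_le_mul_of_nonneg_left (pow_le_pow_left₀ hr0.le hn 2) hκ.le
  obtain ⟨ρ, ⟨hρ0, hρ1⟩, hρx⟩ := intermediate_value_Icc hρ.le hc.continuousOn
    (show x ∈ Set.Icc _ _ from ⟨by simpa using hx, hup⟩)
  refine ⟨z + ρ • h, hρx, ?_⟩
  rw [map_add, add_sub_cancel_left, map_smul, norm_smul, Real.norm_of_nonneg hρ0]
  calc ρ * ‖C.val h‖ ≤ (r + ‖z‖) * (η / (r + ‖z‖)) := by gcongr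
    _ = η := mul_div_cancel₀ _ hρ.ne'

theorem osc_seq {l : ℝ} (a : C.Adm l) (z : H) {x : ℝ} (hx : C.q l z ≤ x) :
    ∃ u : ℕ → H, (∀ n, C.q l (u n) = x) ∧ Tendsto (fun n => C.val (u n)) atTop (𝓝 (C.val z)) := by
  choose u hu using fun n : ℕ =>
    C.osc_to a z hx (η := 1 / ((n : ℝ) + 1)) (Nat.one_div_pos_of_nat)
  refine ⟨u, fun n => (hu n).1, tendsto_iff_norm_sub_tendsto_zero.2 ?_⟩
  exact squeeze_zero (fun _ => norm_nonneg _) (fun n => (hu n).2)
    tendsto_one_div_add_atTop_nhds_zero_nat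

theorem lb_limit (hc : C.LB l1 l2 m1 m2 β c) {u v : ℕ → H} {a b P Q R s t : ℝ}
    (ha : Tendsto (fun n => C.q l1 (u n)) atTop (𝓝 a))
    (hb : Tendsto (fun n => C.q l2 (v n)) atTop (𝓝 b))
    (hP : Tendsto (fun n => C.P (u n)) atTop (𝓝 P)) (hQ : Tendsto (fun n => C.P (v n)) atTop (𝓝 Q))
    (hR : Tendsto (fun n => C.R (u n) (v n)) atTop (𝓝 R)) (hP0 : 0 < P) (hQ0 : 0 < Q)
    (h : Sys m1 m2 β a b P Q R s t) (hd : (β * R) ^ 2 ≠ m1 * P * (m2 * Q)) :
    c ≤ s * a + t * b := by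
  obtain ⟨s', t', hs, ht, he⟩ := sys_tendsto ha hb hP hQ hR h hd
  refine ge_of_tendsto ((hs.mul ha).add (ht.mul hb)) ?_
  filter_upwards [he, hP.eventually_const_lt hP0, hQ.eventually_const_lt hQ0] with n e1 e2 e3
  have hu : u n ≠ 0 := fun e => by simp [e, C.P_zero] at e2
  have hv : v n ≠ 0 := fun e => by simp [e, C.P_zero] at e3
  obtain ⟨k1, -⟩ := C.neh_sqrt (l1 := l1) (l2 := l2) (m1 := m1) (m2 := m2) (β := β) hu hv e1.1
    e1.2.1 e1.2.2.1 e1.2.2.2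
  have := hc _ _ k1
  rwa [C.q_smul, C.q_smul, Real.sq_sqrt e1.1.le, Real.sq_sqrt e1.2.1.le] at this

theorem semi1 (a1 : C.Adm l1) (a2 : C.Adm l2) (h1 : 0 < m1) (h2 : 0 < m2)
    (hc : C.LB l1 l2 m1 m2 β c) {z w : H} (hz : C.P z = 1) (hw : C.P w = 1) {x y : ℝ}
    (hx : C.q l1 z ≤ x) (hy : C.q l2 w ≤ y) (h : m1 * y ≤ β * C.R z w * x) : c * m1 ≤ x ^ 2 := by
  have hz0 : z ≠ 0 := fun e => by simp [e, C.P_zero] at hz
  have hw0 : w ≠ 0 := fun e => by simp [e, C.P_zero] at hw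
  have hx0 : 0 < x := (C.q_pos a1.1 hz0).trans_le hx
  have hy0 : 0 < y := (C.q_pos a2.1 hw0).trans_le hy
  have hb : 0 < β * C.R z w := by
    by_contra hn
    have := mul_nonpos_of_nonpos_of_nonneg (not_lt.1 hn) hx0.le
    have := mul_pos h1 hy0
    linarith
  have key : ∀ δ : ℝ, 0 < δ → c * m1 ≤ (x + δ) ^ 2 := fun δ hδ => by
    obtain ⟨u, hu, hv⟩ := C.osc_seq a1 z (x := x + δ) (by linarith)
    have hP : Tendsto (fun n => C.P (u n)) atTop (𝓝 1) := hz ▸ T4_tendsto hv hv hv hv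
    have hR : Tendsto (fun n => C.R (u n) w) atTop (𝓝 (C.R z w)) :=
      T4_tendsto hv hv tendsto_const_nhds tendsto_const_nhds
    have hlt : m1 * 1 * C.q l2 w - β * C.R z w * (x + δ) < 0 := by
      have := mul_le_mul_of_nonneg_left hy h1.le
      have := mul_pos hb hδ
      linarith
    have hev := (((hP.const_mul m1).mul_const (C.q l2 w)).sub
      ((hR.const_mul β).mul_const (x + δ))).eventually_lt_const hlt
    have hlim : Tendsto (fun n => c * m1 * C.P (u n)) atTop (𝓝 (c * m1)) := by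
      simpa using hP.const_mul (c * m1)
    refine le_of_tendsto hlim ?_
    filter_upwards [hev, hP.eventually_const_lt one_pos] with n e1 e2
    have hu0 : u n ≠ 0 := fun e => by simp [e, C.P_zero] at e2
    have hD : 0 < m1 * C.P (u n) := mul_pos h1 e2
    have hxδ : 0 < x + δ := by linarith
    set σ := (x + δ) / (m1 * C.P (u n)) with hσ
    have hσ0 : 0 < σ := div_pos hxδ hD
    have hσ1 : σ * (m1 * C.P (u n)) = x + δ := div_mul_cancel₀ _ hD.ne'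
    have e3 : √σ ^ 2 = σ := Real.sq_sqrt hσ0.le
    have e4 : √σ ^ 4 = σ ^ 2 := by rw [show √σ ^ 4 = (√σ ^ 2) ^ 2 by ring, e3]
    have eR : C.R w (√σ • u n) = σ * C.R (u n) w := by
      have := C.R_smul 1 (√σ) w (u n)
      rw [one_smul, e3, C.R_comm w (u n)] at this
      rw [this]; ring
    have hq : C.q l1 (√σ • u n) = σ * (x + δ) := by rw [C.q_smul, e3, hu]
    have hcl : c ≤ σ * (x + δ) := by
      refine le_of_forall_pos_le_add fun η hη => ?_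
      obtain ⟨u', v', k1, k2⟩ := C.bound_core (l1 := l2) (l2 := l1) (β := β) h2 h1 (u := w)
        (w := √σ • u n) (smul_ne_zero (Real.sqrt_pos.2 hσ0).ne' hu0)
        (by rw [hq, C.P_smul, e4, ← hσ1]; ring)
        (Or.inl (by
          rw [eR]
          refine lt_of_mul_lt_mul_left ?_ hD.le
          calc m1 * C.P (u n) * C.q l2 w < β * C.R (u n) w * (x + δ) := by linarith
            _ = _ := by rw [← hσ1]; ring)) (η := η / 4) (by positivity)
      have k3 := hc.swap _ _ k1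
      rw [k1.En_eq, hq] at k2
      linarith
    calc c * m1 * C.P (u n) = c * (m1 * C.P (u n)) := by ring
      _ ≤ σ * (x + δ) * (m1 * C.P (u n)) := mul_le_mul_of_nonneg_right hcl hD.le
      _ = (x + δ) ^ 2 := by rw [mul_right_comm, hσ1]; ring
  have hl : Tendsto (fun δ : ℝ => (x + δ) ^ 2) (𝓝[>] 0) (𝓝 (x ^ 2)) := by
    have : Continuous fun δ : ℝ => (x + δ) ^ 2 := by fun_prop
    simpa using (this.tendsto 0).mono_left nhdsWithin_le_nhds
  exact ge_of_tendsto hl (eventually_nhdsWithin_of_forall key)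

theorem semi2 (a1 : C.Adm l1) (a2 : C.Adm l2) (h1 : 0 < m1) (h2 : 0 < m2)
    (hc : C.LB l1 l2 m1 m2 β c) {z w : H} (hz : C.P z = 1) (hw : C.P w = 1) {x y : ℝ}
    (hx : C.q l1 z ≤ x) (hy : C.q l2 w ≤ y) (h : m2 * x ≤ β * C.R z w * y) : c * m2 ≤ y ^ 2 :=
  C.semi1 a2 a1 h2 h1 hc.swap hw hz hy hx (by rwa [C.R_comm])

theorem mon (a1 : C.Adm l1) (a2 : C.Adm l2) (h1 : 0 < m1) (h2 : 0 < m2) (hβ : 0 ≤ β)
    (hc : C.LB l1 l2 m1 m2 β c) {z w : H} (hz : C.P z = 1) (hw : C.P w = 1) {x y ρ s t : ℝ}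
    (hx : C.q l1 z ≤ x) (hy : C.q l2 w ≤ y) (hρ : 0 ≤ ρ) (hR : ρ ≤ C.R z w)
    (h : Sys m1 m2 β x y 1 1 ρ s t) : c ≤ s * x + t * y := by
  refine mon_alg h1 h2 hβ hρ hR h (C.semi1 a1 a2 h1 h2 hc hz hw hx hy)
    (C.semi2 a1 a2 h1 h2 hc hz hw hx hy) fun s' t' k hd => ?_
  obtain ⟨u, hu, hu'⟩ := C.osc_seq a1 z hx
  obtain ⟨v, hv, hv'⟩ := C.osc_seq a2 w hy
  refine C.lb_limit hc (u := u) (v := v) (by simp only [hu]; exact tendsto_const_nhds)
    (by simp only [hv]; exact tendsto_const_nhds) (hz ▸ T4_tendsto hu' hu' hu' hu')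
    (hw ▸ T4_tendsto hv' hv' hv' hv') (T4_tendsto hu' hu' hv' hv') one_pos one_pos k hd

/-- Limit data of a normalised minimising sequence. -/
structure MinSeq (l1 l2 m1 m2 β c x y τ s t : ℝ) (u v : ℕ → H) : Prop where
  pu : ∀ n, C.P (u n) = 1
  pv : ∀ n, C.P (v n) = 1
  qu : Tendsto (fun n => C.q l1 (u n)) atTop (𝓝 x)
  qv : Tendsto (fun n => C.q l2 (v n)) atTop (𝓝 y)
  ruv : Tendsto (fun n => C.R (u n) (v n)) atTop (𝓝 τ)
  s0 : 0 ≤ s
  t0 : 0 ≤ t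
  x0 : 0 < x
  y0 : 0 < y
  e1 : x = m1 * s + β * τ * t
  e2 : y = β * τ * s + m2 * t
  val : c = s * x + t * y

theorem MinSeq.swap {C : Ctx H μ} {x y τ s t : ℝ} {u v : ℕ → H}
    (h : C.MinSeq l1 l2 m1 m2 β c x y τ s t u v) : C.MinSeq l2 l1 m2 m1 β c y x τ t s v u :=
  ⟨h.pv, h.pu, h.qv, h.qu, by simpa only [C.R_comm (v _)] using h.ruv, h.t0, h.s0, h.y0, h.x0,
    by rw [h.e2]; ring, by rw [h.e1]; ring, by rw [h.val]; ring⟩

/-- A normalised non-degenerate minimiser. -/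
def IsMin (l1 l2 m1 m2 β c : ℝ) (z w : H) (s t : ℝ) : Prop :=
  C.P z = 1 ∧ C.P w = 1 ∧ Sys m1 m2 β (C.q l1 z) (C.q l2 w) 1 1 (C.R z w) s t ∧
    (β * C.R z w) ^ 2 ≠ m1 * m2 ∧ c = s * C.q l1 z + t * C.q l2 w

end Ctx
end CritSys
end
end

-- merged part: Pool.Agent.Work.MP_80ee1d_an.U.CritA
section
/-!
Minimising sequences on the Nehari set and the degenerate case.

PLAN. `crit_seq`: `c = sInf {e | ∃ u v, Neh u v ∧ e = q l1 u + q l2 v}`; the set contains a number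
`< c'`, it is bounded below by `0` (`q_nonneg`); `exists_seq_tendsto_sInf`.  Normalise:
`u n = ‖val (U n)‖⁻¹ • U n`, `s n = ‖val (U n)‖²` (`P_eq`, `q_smul`, `R_smul`), so that
`q l1 (u n) = m1 s n + β R (u n) (v n) t n` etc.  `q l (u n) ≥ κ S > 0` (`q_lower`, `C.sob`), so
`s n, t n` are bounded, `0 ≤ R ≤ 1` (`R_le`), and the vector `(q, q, R, s, t)` is bounded:
`tendsto_subseq_of_bounded` in `ℝ × ℝ × ℝ × ℝ × ℝ`.
`crit_deg`: `m1 c = m1 s x + t m1 y = x (m1 s + β τ t) = x²`, and `β τ > 0`.  Fix `δ > 0`.  For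
large `n`, `q l1 (u n) ≤ x + δ`; `osc_to` with `η = 1 / (n + 1)` gives `z n` with
`q l1 (z n) = x + δ`, `val (z n) - val (u n) → 0`, so `P (z n) → 1`, `R (z n) (v n) → τ`
(`T4_tele`, all norms are bounded).  Normalise `z n` (`p n = ‖val (z n)‖² → 1`): the hypothesis of `H1`
reads `m1 q l2 (v n) ≤ β (R / p n) ((x + δ) / p n)` and holds eventually, since in the limit it is
`m1 y < β τ (x + δ)`.  So `c' m1 ≤ ((x + δ) / p n)² → (x + δ)²`; let `δ → 0`.
-/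

open MeasureTheory Filter Topology
open scoped RealInnerProductSpace

noncomputable section
namespace CritSys
namespace Ctx

variable {X : Type} [MeasurableSpace X] {H : Type} [NormedAddCommGroup H] [InnerProductSpace ℝ H]
  {μ : Measure X} [IsFiniteMeasure μ] (C : Ctx H μ) {l1 l2 m1 m2 β c c' : ℝ}

theorem CritA_norm {U : H} (hU : U ≠ 0) : ∃ (u : H) (s : ℝ), 0 < s ∧ C.P u = 1 ∧
    (∀ l, C.q l U = s * C.q l u) ∧ C.P U = s ^ 2 ∧ ∀ V, C.R U V = s * C.R u V := by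
  have h : ‖C.val U‖ ≠ 0 := norm_ne_zero_iff.2 fun h => hU (C.inj U h)
  refine ⟨‖C.val U‖⁻¹ • U, ‖C.val U‖ ^ 2, by positivity, ?_, fun l => ?_, ?_, fun V => ?_⟩
  · rw [P_smul, P_eq]
    field_simp
  · rw [q_smul]
    field_simp
  · rw [P_eq]
    ring
  · have := C.R_smul ‖C.val U‖⁻¹ 1 U V
    rw [one_smul] at this
    rw [this]
    field_simp

theorem CritA_one {u : H} (h : C.P u = 1) : ‖C.val u‖ = 1 :=
  (pow_eq_one_iff_of_nonneg (norm_nonneg _) four_ne_zero).1 ((C.P_eq u).symm.trans h)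

theorem CritA_low {l : ℝ} (a : C.Adm l) : ∃ κ, 0 < κ ∧ ∀ u, C.P u = 1 → κ ≤ C.q l u := by
  have h1 : 0 < (C.Λ + l) / C.Λ := div_pos (by linarith [a.1]) C.Lam_pos
  refine ⟨(C.Λ + l) / C.Λ * C.S, mul_pos h1 C.S_pos, fun u hu => ?_⟩
  have h2 := C.sob u
  rw [C.CritA_one hu, one_pow, mul_one] at h2
  exact (mul_le_mul_of_nonneg_left h2 h1.le).trans (C.q_lower a.2.le u)

theorem CritA_neh {U V : H} (h : C.Neh l1 l2 m1 m2 β U V) : ∃ (u v : H) (s t : ℝ), 0 < s ∧ 0 < t ∧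
    C.P u = 1 ∧ C.P v = 1 ∧ C.q l1 u = m1 * s + β * C.R u v * t ∧
    C.q l2 v = β * C.R u v * s + m2 * t ∧ C.q l1 U + C.q l2 V = s * C.q l1 u + t * C.q l2 v := by
  obtain ⟨h1, h2, h3, h4⟩ := h
  obtain ⟨u, s, a1, a2, a3, a4, a5⟩ := C.CritA_norm h1
  obtain ⟨v, t, b1, b2, b3, b4, b5⟩ := C.CritA_norm h2
  have e : C.R U V = s * (t * C.R u v) := by rw [a5, R_comm, b5, R_comm]
  rw [a3, a4, e] at h3
  rw [b3, b4, e] at h4
  exact ⟨u, v, s, t, a1, b1, a2, b2, mul_left_cancel₀ a1.ne' (by linear_combination h3),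
    mul_left_cancel₀ b1.ne' (by linear_combination h4), by rw [a3, b3]⟩

theorem crit_seq (a1 : C.Adm l1) (a2 : C.Adm l2) (h1 : 0 < m1) (h2 : 0 < m2) (hβ : 0 ≤ β)
    (h : ¬ C.LB l1 l2 m1 m2 β c') : ∃ (c x y τ s t : ℝ) (u v : ℕ → H), c < c' ∧
      C.LB l1 l2 m1 m2 β c ∧ C.MinSeq l1 l2 m1 m2 β c x y τ s t u v := by
  simp only [LB, not_forall, not_le] at h
  obtain ⟨U₀, V₀, n0, h⟩ := h
  have hb : BddBelow {e | ∃ u v, C.Neh l1 l2 m1 m2 β u v ∧ e = C.q l1 u + C.q l2 v} := ⟨0, by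
    rintro _ ⟨u, v, -, rfl⟩
    exact add_nonneg (C.q_nonneg a1.1.le u) (C.q_nonneg a2.1.le v)⟩
  obtain ⟨e, e1, e2, e3⟩ := exists_seq_tendsto_sInf ⟨_, by exact ⟨U₀, V₀, n0, rfl⟩⟩ hb
  choose U V hN he using e3
  choose u v s t s0 t0 pu pv k1 k2 k3 using fun n => C.CritA_neh (hN n)
  obtain ⟨κ, κ0, hκ⟩ := C.CritA_low a1
  obtain ⟨κ', κ0', hκ'⟩ := C.CritA_low a2
  have bd : ∀ n, (C.R (u n) (v n), s n, t n) ∈
      Set.Icc (0 : ℝ) 1 ×ˢ Set.Icc 0 (e 0 / κ) ×ˢ Set.Icc 0 (e 0 / κ') := fun n => by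
    have b1 := C.R_le (u n) (v n)
    rw [C.CritA_one (pu n), C.CritA_one (pv n), one_pow, mul_one] at b1
    have b2 := e1 (Nat.zero_le n)
    rw [he n, k3] at b2
    have b3 := mul_le_mul_of_nonneg_left (hκ _ (pu n)) (s0 n).le
    have b4 := mul_le_mul_of_nonneg_left (hκ' _ (pv n)) (t0 n).le
    have b5 := mul_pos (s0 n) κ0
    have b6 := mul_pos (t0 n) κ0'
    exact ⟨⟨C.R_nonneg _ _, b1⟩, ⟨(s0 n).le, (le_div_iff₀ κ0).2 (by linarith)⟩, (t0 n).le,
      (le_div_iff₀ κ0').2 (by linarith)⟩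
  obtain ⟨⟨τ, s', t'⟩, ⟨-, ⟨m1', -⟩, m2', -⟩, φ, hφ, hl⟩ :=
    (isCompact_Icc.prod (isCompact_Icc.prod isCompact_Icc)).tendsto_subseq bd
  have lR : Tendsto (fun n => C.R (u (φ n)) (v (φ n))) atTop (𝓝 τ) := hl.fst_nhds
  have ls : Tendsto (fun n => s (φ n)) atTop (𝓝 s') := hl.snd_nhds.fst_nhds
  have lt : Tendsto (fun n => t (φ n)) atTop (𝓝 t') := hl.snd_nhds.snd_nhds
  have lx : Tendsto (fun n => C.q l1 (u (φ n))) atTop (𝓝 (m1 * s' + β * τ * t')) := by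
    simp only [k1]
    exact (ls.const_mul _).add ((lR.const_mul _).mul lt)
  have ly : Tendsto (fun n => C.q l2 (v (φ n))) atTop (𝓝 (β * τ * s' + m2 * t')) := by
    simp only [k2]
    exact ((lR.const_mul _).mul ls).add (lt.const_mul _)
  refine ⟨_, _, _, τ, s', t', fun n => u (φ n), fun n => v (φ n),
    (csInf_le hb ⟨U₀, V₀, n0, rfl⟩).trans_lt h, fun a b hab => csInf_le hb ⟨a, b, hab, rfl⟩,
    fun n => pu _, fun n => pv _, lx, ly, lR, m1', m2',
    κ0.trans_le (ge_of_tendsto' lx fun n => hκ _ (pu _)),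
    κ0'.trans_le (ge_of_tendsto' ly fun n => hκ' _ (pv _)), rfl, rfl,
    tendsto_nhds_unique (e2.comp hφ.tendsto_atTop) ?_⟩
  refine ((ls.mul lx).add (lt.mul ly)).congr fun n => ?_
  rw [Function.comp, he, k3]

theorem crit_deg (a1 : C.Adm l1) (h1 : 0 < m1) {x y τ s t : ℝ} {u v : ℕ → H}
    (hM : C.MinSeq l1 l2 m1 m2 β c x y τ s t u v)
    (H1 : ∀ z w, C.P z = 1 → C.P w = 1 → m1 * C.q l2 w ≤ β * C.R z w * C.q l1 z →
      c' * m1 ≤ C.q l1 z ^ 2) (h : m1 * y = β * τ * x) : c' ≤ c := by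
  have H2 : ∀ z w, z ≠ 0 → C.P w = 1 → m1 * C.q l2 w * C.P z ≤ β * C.R z w * C.q l1 z →
      c' * m1 * C.P z ≤ C.q l1 z ^ 2 := fun z w hz hw k => by
    obtain ⟨z', p, b1, b2, b3, b4, b5⟩ := C.CritA_norm hz
    rw [b3, b4, b5] at k
    rw [b3, b4, mul_pow, mul_comm (p ^ 2)]
    exact mul_le_mul_of_nonneg_right (H1 z' w b2 hw (le_of_mul_le_mul_right
      (a := p ^ 2) (by linarith) (by positivity))) (sq_nonneg p)
  have hτ : 0 < β * τ := (mul_pos_iff_of_pos_right hM.x0).1 (h ▸ mul_pos h1 hM.y0)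
  have key : ∀ δ, 0 < δ → c' * m1 ≤ (x + δ) ^ 2 := fun δ hδ => by
    have k1 : ∀ n : ℕ, ∃ z, (C.q l1 (u n) ≤ x + δ → C.q l1 z = x + δ) ∧
        ‖C.val z - C.val (u n)‖ ≤ 1 / (n + 1) := fun n => by
      by_cases k : C.q l1 (u n) ≤ x + δ
      · exact (C.osc_to a1 (u n) k Nat.one_div_pos_of_nat).imp fun z hz => ⟨fun _ => hz.1, hz.2⟩
      · exact ⟨u n, fun k' => absurd k' k, by rw [sub_self, norm_zero]; positivity⟩
    choose z z1 z2 using k1
    have l0 : Tendsto (fun n => ‖C.val (z n) - C.val (u n)‖) atTop (𝓝 0) :=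
      squeeze_zero (fun n => norm_nonneg _) z2 tendsto_one_div_add_atTop_nhds_zero_nat
    have l1' : Tendsto (fun n => ‖C.val (z n)‖) atTop (𝓝 1) :=
      tendsto_iff_norm_sub_tendsto_zero.2 (squeeze_zero (fun n => norm_nonneg _) (fun n => by
        rw [← C.CritA_one (hM.pu n)]
        exact abs_norm_sub_norm_le _ _) l0)
    have lP : Tendsto (fun n => C.P (z n)) atTop (𝓝 1) := by
      simpa only [P_eq, one_pow] using l1'.pow 4
    have lR : Tendsto (fun n => C.R (z n) (v n)) atTop (𝓝 τ) := by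
      refine hM.ruv.congr_dist (squeeze_zero (fun n => dist_nonneg) (fun n => ?_)
        (by simpa using (l0.mul l1').add l0))
      have := T4_tele (C.val (z n)) (C.val (z n)) (C.val (v n)) (C.val (v n)) (C.val (u n))
        (C.val (u n)) (C.val (v n)) (C.val (v n))
      rw [C.CritA_one (hM.pu n), C.CritA_one (hM.pv n), sub_self, norm_zero] at this
      rw [dist_comm, Real.dist_eq]
      exact this.trans_eq (by ring)
    have e1 := ((hM.qv.const_mul m1).mul lP).eventually_lt ((lR.const_mul β).mul_const (x + δ))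
      (by linarith only [h, hτ, hδ, mul_pos hτ hδ])
    have e2 := hM.qu.eventually_le_const (lt_add_of_pos_right x hδ)
    rw [← mul_one (c' * m1)]
    refine le_of_tendsto (lP.const_mul _) ?_
    filter_upwards [e1, e2] with n k1 k2
    rw [← z1 n k2] at k1 ⊢
    refine H2 _ _ (fun k => ?_) (hM.pv n) k1.le
    have := z1 n k2
    rw [k, q_zero] at this
    linarith [hM.x0]
  have k1 : c' * m1 ≤ (x + 0) ^ 2 :=
    ge_of_tendsto (x := 𝓝[>] 0) (f := fun δ => (x + δ) ^ 2)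
      ((Continuous.tendsto (by fun_prop) 0).mono_left nhdsWithin_le_nhds)
      (eventually_mem_nhdsWithin.mono key)
  refine le_of_mul_le_mul_right (k1.trans_eq ?_) h1
  rw [hM.val]
  linear_combination x * hM.e1 - t * h

end Ctx
end CritSys
end
end

-- merged part: Pool.Agent.Work.MP_80ee1d_an.U.CritB
section
/-!
A non-degenerate minimising sequence converges.

PLAN. The norms are bounded (`Upper_bound`, convergent sequences are bounded above).  `decomp` gives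
`z, w, r, σ` and primed data with `x = q l1 z + a'`, `y = q l2 w + b'`, `1 = P z + P'`,
`1 = P w + Q'`, `τ = R z w + R'` (`tendsto_nhds_unique`).  `envelope` along `z + ε • z`: the data are
`(q l1 (z + ε • z) + a', y, P (z + ε • z) + P', 1, R (z + ε • z) w + R')`, and `hlow` is `lb_limit` for
the sequences `z + ε • z + r n`, `w + σ n` (fields `qa, qb, pa, pb, rab` of `Rem`).  This gives
`q l1 z = m1 P z s + β R z w t` (`hasDerivAt_q/P/R1`, `B_self`); prove it as one lemma and use it twice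
(swap).  Subtracting, `a' = m1 P' s + β R' t`, `b' = β R' s + m2 Q' t`.  `c > 0`.
Let `φ, σ₀ < S` be from `exists_phi`, `k = σ₀ / S < 1`; `a' ≥ S √P'`, `b' ≥ S √Q'`.
* `P' > 0` and `Q' > 0` is impossible: `mon` with `φ, φ`, `x = k a' / √P'`, `y = k b' / √Q'`,
  `ρ = R' / (√P' √Q') ≤ 1 = R φ φ`, solution `(k s √P', k t √Q')`, gives
  `c ≤ k² (s a' + t b') ≤ k² c`.
* `z = 0`: `P' = 1`, so `Q' = 0`, `R' = 0`, `b' = 0`, `P w = 1`, `q l2 w = m2 t`, `a' = m1 s ≥ S`,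
  `c = a'² / m1 + m2 t²`; `mon` with `φ, w`, `ρ = 0`, `x = σ₀`, solution `(σ₀ / m1, t)` gives
  `c ≤ σ₀² / m1 + m2 t²`, absurd.  Symmetric for `w = 0`.
* `z, w ≠ 0`: `neh_sqrt` and `hc` give `c ≤ s q l1 z + t q l2 w`, so `a' = b' = 0`, `P' = Q' = R' = 0`.
-/

open MeasureTheory Filter Topology
open scoped RealInnerProductSpace

noncomputable section
namespace CritSys
namespace Ctx

variable {X : Type} [MeasurableSpace X] {H : Type} [NormedAddCommGroup H] [InnerProductSpace ℝ H]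
  [CompleteSpace H] [TopologicalSpace.SeparableSpace H] {μ : Measure X} [IsFiniteMeasure μ]
  (C : Ctx H μ) {l1 l2 m1 m2 β c : ℝ}

omit [CompleteSpace H] [TopologicalSpace.SeparableSpace H] in
theorem CritB_e (hc : C.LB l1 l2 m1 m2 β c) {r v : ℕ → H} {z w : H} {a' P' R' y s t : ℝ}
    (qa : ∀ z', Tendsto (fun n => C.q l1 (z' + r n)) atTop (𝓝 (C.q l1 z' + a')))
    (pa : ∀ z', Tendsto (fun n => C.P (z' + r n)) atTop (𝓝 (C.P z' + P')))
    (rab : ∀ z', Tendsto (fun n => C.R (z' + r n) (v n)) atTop (𝓝 (C.R z' w + R')))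
    (qv : Tendsto (fun n => C.q l2 (v n)) atTop (𝓝 y))
    (pv : Tendsto (fun n => C.P (v n)) atTop (𝓝 1)) (hP : C.P z + P' = 1)
    (h : Sys m1 m2 β (C.q l1 z + a') y 1 1 (C.R z w + R') s t)
    (hd : (β * (C.R z w + R')) ^ 2 ≠ m1 * m2) (hv : c = s * (C.q l1 z + a') + t * y) :
    C.q l1 z = m1 * C.P z * s + β * C.R z w * t := by
  have dP := (C.hasDerivAt_P z z).add_const P'
  have e := envelope (m1 := m1) (m2 := m2) (β := β) (s := s) (t := t)
    ((C.hasDerivAt_q l1 z z).add_const a') (hasDerivAt_const (0 : ℝ) y) dP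
    (hasDerivAt_const (0 : ℝ) (1 : ℝ)) ((C.hasDerivAt_R1 z w z).add_const R')
    (by simpa [hP] using h) (by simpa [hP] using hd) (by
      have h1 : ∀ᶠ ε in 𝓝 (0 : ℝ), 0 < C.P (z + ε • z) + P' :=
        dP.continuousAt.eventually (lt_mem_nhds (by simp [hP]))
      filter_upwards [h1] with ε hε s' t' hs hd'
      simp only [zero_smul, add_zero]
      rw [← hv]
      exact C.lb_limit hc (qa _) qv (pa _) pv (rab _) hε one_pos hs hd')
  rw [B_self, show C.T w w z z = C.R z w from C.R_comm w z,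
    show C.T z z z z = C.P z from rfl, FF] at e
  have e' : s * (C.q l1 z - (m1 * C.P z * s + β * C.R z w * t)) = 0 := by linear_combination e
  exact sub_eq_zero.1 ((mul_eq_zero.1 e').resolve_left h.1.ne')

theorem CritB_sqrt {S P a : ℝ} (hP : 0 ≤ P) (ha : 0 ≤ a) (h : S ^ 2 * P ≤ a ^ 2) :
    S * √P ≤ a :=
  (abs_le_of_sq_le_sq' (by rw [mul_pow, Real.sq_sqrt hP]; exact h) ha).2

omit [CompleteSpace H] [TopologicalSpace.SeparableSpace H] in
/-- Two bubbles are too expensive. -/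
theorem CritB_two (a1 : C.Adm l1) (a2 : C.Adm l2) (h1 : 0 < m1) (h2 : 0 < m2) (hβ : 0 ≤ β)
    (hc : C.LB l1 l2 m1 m2 β c) {a' b' P' Q' R' s t : ℝ} (hP : 0 < P') (hQ : 0 < Q')
    (hR : 0 ≤ R') (rr : R' ^ 2 ≤ P' * Q') (sa : C.S * √P' ≤ a') (sb : C.S * √Q' ≤ b')
    (h : Sys m1 m2 β a' b' P' Q' R' s t) (hv : s * a' + t * b' ≤ c) (hc0 : 0 < c) : False := by
  obtain ⟨φ, σ, -, -, hφP, hφ1, hφ2, hσ, hσS⟩ := C.exists_phi a1 a2
  have hS := C.S_pos
  obtain ⟨p, hp, rfl⟩ : ∃ p, 0 < p ∧ P' = p ^ 2 := ⟨√P', Real.sqrt_pos.2 hP, (Real.sq_sqrt hP.le).symm⟩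
  obtain ⟨q, hq, rfl⟩ : ∃ q, 0 < q ∧ Q' = q ^ 2 := ⟨√Q', Real.sqrt_pos.2 hQ, (Real.sq_sqrt hQ.le).symm⟩
  rw [Real.sqrt_sq hp.le] at sa
  rw [Real.sqrt_sq hq.le] at sb
  obtain ⟨k, hk, hk1, rfl⟩ : ∃ k, 0 < k ∧ k < 1 ∧ σ = k * C.S :=
    ⟨σ / C.S, by positivity, (div_lt_one hS).2 hσS, by field_simp⟩
  obtain ⟨hs, ht, e1, e2⟩ := h
  have hR' : R' ≤ p * q := (abs_le_of_sq_le_sq' (by rw [mul_pow]; exact rr) (by positivity)).2
  have key := C.mon a1 a2 h1 h2 hβ hc hφP hφP (x := k * a' / p) (y := k * b' / q)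
    (ρ := R' / (p * q)) (s := k * s * p) (t := k * t * q)
    (hφ1.trans (by clear * - k X H μ C a' p hp sa hk hq hφ2; rw [le_div_iff₀ hp]; nlinarith)) (hφ2.trans (by clear * - k X H μ C b' q hq sb hk; rw [le_div_iff₀ hq]; nlinarith))
    (by positivity) (by rw [R_self, hφP, div_le_one (by positivity)]; exact hR')
    ⟨by positivity, by positivity, by rw [e1]; field_simp, by rw [e2]; field_simp⟩
  have e : k * s * p * (k * a' / p) + k * t * q * (k * b' / q) = k ^ 2 * (s * a' + t * b') := by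
    field_simp
  rw [e] at key
  have k2 : k ^ 2 < 1 := by linarith only [hk1, hk, mul_pos_of_neg_of_neg (Mathlib.Tactic.Linarith.sub_neg_of_lt hk) (Mathlib.Tactic.Linarith.sub_neg_of_lt hk1)]
  linarith only [key, hv, hc0, k2, mul_le_mul_of_nonneg_left hv (sq_nonneg k), sq_nonneg k, mul_pos_of_neg_of_neg (Mathlib.Tactic.Linarith.sub_neg_of_lt hc0) (Mathlib.Tactic.Linarith.sub_neg_of_lt k2)]

omit [CompleteSpace H] [TopologicalSpace.SeparableSpace H] in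
/-- One bubble and one scalar solution are too expensive. -/
theorem CritB_one (a1 : C.Adm l1) (a2 : C.Adm l2) (h1 : 0 < m1) (h2 : 0 < m2) (hβ : 0 ≤ β)
    (hc : C.LB l1 l2 m1 m2 β c) {w : H} {s t : ℝ} (hw : C.P w = 1) (ht : 0 < t)
    (e : C.q l2 w = m2 * t) (sa : C.S ≤ m1 * s) (hv : c = s * (m1 * s) + t * (m2 * t)) :
    False := by
  obtain ⟨φ, σ, -, -, hφP, hφ1, -, hσ, hσS⟩ := C.exists_phi a1 a2
  have key := C.mon a1 a2 h1 h2 hβ hc hφP hw (x := σ) (y := m2 * t) (ρ := 0) (s := σ / m1) (t := t)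
    hφ1 e.le le_rfl (C.R_nonneg _ _) ⟨by positivity, ht, by field_simp; ring, by ring⟩
  have k1 : σ / m1 < s := by rw [div_lt_iff₀ h1]; linarith
  have k2 : σ / m1 * σ < s * (m1 * s) :=
    mul_lt_mul'' k1 (hσS.trans_le sa) (by positivity) hσ.le
  linarith only [hv, key, k2]

theorem crit_min (a1 : C.Adm l1) (a2 : C.Adm l2) (h1 : 0 < m1) (h2 : 0 < m2) (hβ : 0 ≤ β)
    (hc : C.LB l1 l2 m1 m2 β c) {x y τ s t : ℝ} {u v : ℕ → H}
    (hM : C.MinSeq l1 l2 m1 m2 β c x y τ s t u v) (hs : 0 < s) (ht : 0 < t)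
    (hd : (β * τ) ^ 2 ≠ m1 * m2) : ∃ z w, C.IsMin l1 l2 m1 m2 β c z w s t := by
  obtain ⟨B1, hB1⟩ := hM.qu.bddAbove_range
  obtain ⟨B2, hB2⟩ := hM.qv.bddAbove_range
  obtain ⟨K1, hK1⟩ := C.Upper_bound a1 B1
  obtain ⟨K2, hK2⟩ := C.Upper_bound a2 B2
  obtain ⟨ψ, z, w, r, σ, a', b', P', Q', R', hψ, hur, hvs, hR⟩ := C.decomp u v (max K1 K2)
    (fun n => (hK1 _ (hB1 (Set.mem_range_self n))).trans (le_max_left _ _))
    (fun n => (hK2 _ (hB2 (Set.mem_range_self n))).trans (le_max_right _ _))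
  have hPP : C.P z + P' = 1 := tendsto_nhds_unique (hR.pa z)
    (tendsto_const_nhds.congr fun n => by rw [← hur, hM.pu])
  have hQQ : C.P w + Q' = 1 := tendsto_nhds_unique (hR.pb w)
    (tendsto_const_nhds.congr fun n => by rw [← hvs, hM.pv])
  have hx : C.q l1 z + a' = x := tendsto_nhds_unique (hR.qa l1 z)
    ((hM.qu.comp hψ.tendsto_atTop).congr fun n => by rw [← hur]; rfl)
  have hy : C.q l2 w + b' = y := tendsto_nhds_unique (hR.qb l2 w)
    ((hM.qv.comp hψ.tendsto_atTop).congr fun n => by rw [← hvs]; rfl)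
  have hτ : C.R z w + R' = τ := tendsto_nhds_unique (hR.rab z w)
    ((hM.ruv.comp hψ.tendsto_atTop).congr fun n => by rw [← hur, ← hvs]; rfl)
  have hsys : Sys m1 m2 β x y 1 1 τ s t :=
    ⟨hs, ht, by rw [mul_one]; exact hM.e1, by rw [mul_one]; exact hM.e2⟩
  have e1 : C.q l1 z = m1 * C.P z * s + β * C.R z w * t :=
    C.CritB_e hc (hR.qa l1) hR.pa (fun z' => hR.rab z' w) (hy ▸ hR.qb l2 w) (hQQ ▸ hR.pb w) hPP
      (by rw [hx, hτ]; exact hsys) (by rw [hτ]; exact hd) (by rw [hx]; exact hM.val)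
  have e2 : C.q l2 w = m2 * C.P w * t + β * C.R w z * s :=
    C.CritB_e hc.swap (hR.qb l2) hR.pb (v := fun n => z + r n)
      (fun w' => by simpa only [C.R_comm w', C.R_comm (w' + σ _)] using hR.rab z w')
      (hx ▸ hR.qa l1 z) (hPP ▸ hR.pa z) hQQ
      (by rw [hy, C.R_comm w z, hτ]; exact hsys.swap)
      (by rw [C.R_comm w z, hτ, mul_comm m2]; exact hd) (by rw [hy, hM.val]; ring)
  rw [C.R_comm w z] at e2
  have f1 : a' = m1 * P' * s + β * R' * t := by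
    have := hM.e1
    linear_combination this + hx - e1 - m1 * s * hPP - β * t * hτ
  have f2 : b' = β * R' * s + m2 * Q' * t := by
    have := hM.e2
    linear_combination this + hy - e2 - m2 * t * hQQ - β * s * hτ
  have hval : c = (s * C.q l1 z + t * C.q l2 w) + (s * a' + t * b') := by
    rw [hM.val, ← hx, ← hy]; ring
  have hc0 : 0 < c := by rw [hM.val]; exact add_pos (mul_pos hs hM.x0) (mul_pos ht hM.y0)
  have sa := CritB_sqrt hR.P0 hR.a0 hR.sa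
  have sb := CritB_sqrt hR.Q0 hR.b0 hR.sb
  have two : P' = 0 ∨ Q' = 0 := by
    by_contra hne
    push Not at hne
    refine C.CritB_two a1 a2 h1 h2 hβ hc (hR.P0.lt_of_ne' hne.1) (hR.Q0.lt_of_ne' hne.2) hR.R0 hR.rr
      sa sb ⟨hs, ht, f1, f2⟩ ?_ hc0
    have := mul_nonneg hs.le (C.q_nonneg a1.1.le z)
    have := mul_nonneg ht.le (C.q_nonneg a2.1.le w)
    linarith
  have hR0 : R' = 0 := by
    clear * - R' P' Q' X H μ C r σ a' b' hR two
    have := hR.rr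
    rcases two with e | e <;> rw [e] at this <;> nlinarith [sq_nonneg R']
  have hz : z ≠ 0 := by
    rintro rfl
    rw [C.P_zero, zero_add] at hPP
    have hQ : Q' = 0 := two.resolve_left (by rw [hPP]; exact one_ne_zero)
    rw [hQ, add_zero] at hQQ
    rw [C.R_zero1, hQQ] at e2
    rw [hPP, hR0] at f1
    rw [hQ, hR0] at f2
    rw [hPP, Real.sqrt_one, mul_one] at sa
    refine C.CritB_one a1 a2 h1 h2 hβ hc (s := s) hQQ ht (by linarith) (by linarith) ?_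
    rw [hval, C.q_zero, e2, f1, f2]; ring
  have hw : w ≠ 0 := by
    rintro rfl
    rw [C.P_zero, zero_add] at hQQ
    have hP : P' = 0 := two.resolve_right (by rw [hQQ]; exact one_ne_zero)
    rw [hP, add_zero] at hPP
    rw [C.R_zero2, hPP] at e1
    rw [hP, hR0] at f1
    rw [hQQ, hR0] at f2
    rw [hQQ, Real.sqrt_one, mul_one] at sb
    refine C.CritB_one a2 a1 h2 h1 hβ hc.swap (s := t) hPP hs (by linarith) (by linarith) ?_
    rw [hval, C.q_zero, e1, f1, f2]; ring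
  have hN := C.neh_sqrt (l1 := l1) (l2 := l2) (m1 := m1) (m2 := m2) (β := β) hz hw hs ht e1
    (by rw [e2]; ring)
  have hle := hc _ _ hN.1
  rw [q_smul, q_smul, Real.sq_sqrt hs.le, Real.sq_sqrt ht.le] at hle
  have g1 := mul_nonneg hs.le hR.a0
  have g2 := mul_nonneg ht.le hR.b0
  have ha : a' = 0 := (mul_eq_zero.1 (show s * a' = 0 by linarith)).resolve_left hs.ne'
  have hb : b' = 0 := (mul_eq_zero.1 (show t * b' = 0 by linarith)).resolve_left ht.ne'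
  have hP : P' = 0 := by
    rw [ha, hR0] at f1
    exact (mul_eq_zero.1 (show (m1 * s) * P' = 0 by linarith only [f1])).resolve_left (by positivity)
  have hQ : Q' = 0 := by
    rw [hb, hR0] at f2
    exact (mul_eq_zero.1 (show (m2 * t) * Q' = 0 by linarith only [f2])).resolve_left (by positivity)
  rw [hP, add_zero] at hPP
  rw [hQ, add_zero] at hQQ
  rw [ha, add_zero] at hx
  rw [hb, add_zero] at hy
  rw [hR0, add_zero] at hτ
  exact ⟨z, w, hPP, hQQ, by rw [hx, hy, hτ]; exact hsys, by rw [hτ]; exact hd,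
    by rw [hx, hy]; exact hM.val⟩

end Ctx
end CritSys
end
end

-- merged part: Pool.Agent.Work.MP_80ee1d_an.U.CritC
section
/-!
A minimiser gives a positive ground state; the existence criterion.

PLAN. `IsMin.swap`.  `min_abs`: let `z'` be from `exists_abs`.  If `q l1 z' < q l1 z`, apply `envelope`
to the data `(q l1 z + ε, q l2 w, 1, 1, R z w)`: `hlow` is `mon` for `z', w` with `ρ = R z' w = R z w`;
`FF 1 0 0 0 0 s t = s / 2 ≠ 0`.  So `q l1 z' = q l1 z` and `z'` replaces `z`.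
`min_eqn`: `envelope` along `z + ε • ψ` (non-zero for small `ε`, `neh_sqrt`, `hc`) gives
`s (B l1 z ψ - m1 s T z z z ψ - β t T w w z ψ) = 0`; see `Alt_eqn` in `Alt.lean` for the rescaling.
`crit_gs`: `min_abs` twice, `min_eqn` twice, `pos_of_eqn`, energies by `neh_sqrt`, `Neh.En_eq`.
`gs_data`: `u = √s • z` with `s = ‖val u‖²`; `picone_eqn` for the first equation with `ψ = w`.
-/

open MeasureTheory Filter Topology
open scoped RealInnerProductSpace

noncomputable section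
namespace CritSys
namespace Ctx

variable {X : Type} [MeasurableSpace X] {H : Type} [NormedAddCommGroup H] [InnerProductSpace ℝ H]
  [CompleteSpace H] [TopologicalSpace.SeparableSpace H] {μ : Measure X} [IsFiniteMeasure μ]
  (C : Ctx H μ) {l1 l2 m1 m2 β c c' : ℝ}

omit [CompleteSpace H] [TopologicalSpace.SeparableSpace H] in
theorem CritC_swap {z w : H} {s t : ℝ} (h : C.IsMin l1 l2 m1 m2 β c z w s t) :
    C.IsMin l2 l1 m2 m1 β c w z t s := by
  obtain ⟨pz, pw, hs, hd, e⟩ := h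
  refine ⟨pw, pz, ?_, ?_, by rw [e]; ring⟩
  · rw [C.R_comm]
    exact hs.swap
  · rwa [C.R_comm, mul_comm m2]

omit [CompleteSpace H] [TopologicalSpace.SeparableSpace H] in
theorem CritC_ne {z : H} (h : C.P z = 1) : z ≠ 0 := by
  rintro rfl
  rw [C.P_zero] at h
  exact zero_ne_one h

omit [CompleteSpace H] [TopologicalSpace.SeparableSpace H] in
theorem CritC_abs (a1 : C.Adm l1) (a2 : C.Adm l2) (h1 : 0 < m1) (h2 : 0 < m2) (hβ : 0 ≤ β)
    (hc : C.LB l1 l2 m1 m2 β c) {z w : H} {s t : ℝ} (h : C.IsMin l1 l2 m1 m2 β c z w s t) :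
    ∃ z', 0 ≤ C.val z' ∧ C.IsMin l1 l2 m1 m2 β c z' w s t := by
  obtain ⟨pz, pw, hs, hd, e⟩ := h
  obtain ⟨z', -, z0, -, -, -, qz, Pz, Rz, -⟩ := C.exists_abs z
  have hq : C.q l1 z' = C.q l1 z := by
    refine (qz l1).eq_or_lt.resolve_right fun hlt => ?_
    have hev : ∀ᶠ ε in 𝓝 (0 : ℝ), C.q l1 z' < C.q l1 z + ε :=
      ContinuousAt.eventually_lt continuousAt_const (by fun_prop) (by simpa using hlt)
    have key := envelope (m1 := m1) (m2 := m2) (β := β) (s := s) (t := t)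
      ((hasDerivAt_id' (0 : ℝ)).const_add (C.q l1 z)) (hasDerivAt_const (0 : ℝ) (C.q l2 w))
      (hasDerivAt_const (0 : ℝ) (1 : ℝ)) (hasDerivAt_const (0 : ℝ) (1 : ℝ))
      (hasDerivAt_const (0 : ℝ) (C.R z w)) (by simpa only [add_zero] using hs)
      (by simpa only [mul_one] using hd)
      (hev.mono fun ε hε s' t' hs' _ => by
        rw [add_zero, ← e]
        exact C.mon a1 a2 h1 h2 hβ hc (Pz.trans pz) pw hε.le le_rfl (C.R_nonneg z w)
          (Rz w).ge hs')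
    unfold FF at key
    have := hs.1
    linarith only [key, this]
  exact ⟨z', z0, Pz.trans pz, pw, by rwa [hq, Rz], by rwa [Rz], by rwa [hq]⟩

omit [CompleteSpace H] [TopologicalSpace.SeparableSpace H] in
theorem CritC_eqn (hc : C.LB l1 l2 m1 m2 β c) {z w : H} {s t : ℝ}
    (h : C.IsMin l1 l2 m1 m2 β c z w s t) : C.Eqn l1 m1 β (√s • z) (√t • w) := by
  obtain ⟨pz, pw, hs, hd, e⟩ := h
  intro ψ
  have e0 : z + (0 : ℝ) • ψ = z := by simp
  have hne : ∀ᶠ ε in 𝓝 (0 : ℝ), z + ε • ψ ≠ 0 :=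
    ContinuousAt.eventually_ne (g := fun ε : ℝ => z + ε • ψ) (by fun_prop)
      (by simpa using C.CritC_ne pz)
  have key := envelope (m1 := m1) (m2 := m2) (β := β) (s := s) (t := t) (C.hasDerivAt_q l1 z ψ)
    (hasDerivAt_const (0 : ℝ) (C.q l2 w)) (C.hasDerivAt_P z ψ) (hasDerivAt_const (0 : ℝ) (C.P w))
    (C.hasDerivAt_R1 z w ψ) (by simpa only [e0, pz, pw] using hs)
    (by simpa only [e0, pz, pw, mul_one] using hd)
    (hne.mono fun ε hε s' t' hs' _ => by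
      have := hc _ _ (C.neh_sqrt hε (C.CritC_ne pw) hs'.1 hs'.2.1 hs'.2.2.1 hs'.2.2.2).1
      rw [q_smul, q_smul, Real.sq_sqrt hs'.1.le, Real.sq_sqrt hs'.2.1.le] at this
      rwa [e0, ← e])
  have e : C.B l1 z ψ = m1 * s * C.T z z z ψ + β * t * C.T w w z ψ := by
    refine mul_left_cancel₀ hs.1.ne' ?_
    unfold FF at key
    linarith
  rw [B_smul1, T_smul1, T_smul2, T_smul3, T_smul1, T_smul2, T_smul3, e,
    ← mul_assoc √s √s, Real.mul_self_sqrt hs.1.le, ← mul_assoc √t √t,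
    Real.mul_self_sqrt hs.2.1.le]
  ring

omit [CompleteSpace H] [TopologicalSpace.SeparableSpace H] in
theorem CritC_pos (a1 : C.Adm l1) (h1 : 0 < m1) (hβ : 0 ≤ β) {u v : H} (hu : u ≠ 0)
    (h0 : 0 ≤ C.val u) {s : ℝ} (hs : 0 < s) (h : C.Eqn l1 m1 β (√s • u) v) : C.Pos (√s • u) := by
  refine C.pos_of_eqn h a1.2.le h1.le hβ ?_ (smul_ne_zero (Real.sqrt_pos.2 hs).ne' hu)
  rw [map_smul, ← Lp.coeFn_nonneg]
  filter_upwards [Lp.coeFn_smul √s (C.val u), (Lp.coeFn_nonneg _).2 h0] with x e hx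
  rw [e]
  exact mul_nonneg (Real.sqrt_nonneg s) hx

omit [CompleteSpace H] [TopologicalSpace.SeparableSpace H] in
theorem CritC_norm {u : H} (hu : u ≠ 0) : ∃ (z : H) (r : ℝ), 0 < r ∧ C.P z = 1 ∧ u = r • z := by
  have hr : 0 < ‖C.val u‖ := norm_pos_iff.2 fun h => hu (C.inj u h)
  refine ⟨‖C.val u‖⁻¹ • u, ‖C.val u‖, hr, ?_, (smul_inv_smul₀ hr.ne' u).symm⟩
  rw [P_smul, P_eq, ← mul_pow, inv_mul_cancel₀ hr.ne', one_pow]

theorem crit_gs (a1 : C.Adm l1) (a2 : C.Adm l2) (h1 : 0 < m1) (h2 : 0 < m2) (hβ : 0 ≤ β)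
    (hc : C.LB l1 l2 m1 m2 β c) {z w : H} {s t : ℝ} (h : C.IsMin l1 l2 m1 m2 β c z w s t) :
    C.GS l1 l2 m1 m2 β := by
  obtain ⟨z, z0, h⟩ := C.CritC_abs a1 a2 h1 h2 hβ hc h
  obtain ⟨w, w0, h'⟩ := C.CritC_abs a2 a1 h2 h1 hβ hc.swap (C.CritC_swap h)
  replace h := C.CritC_swap h'
  have e1 := C.CritC_eqn hc h
  have e2 := C.CritC_eqn hc.swap h'
  obtain ⟨pz, pw, hs, -, e⟩ := h
  refine ⟨_, _, e1, e2, C.CritC_pos a1 h1 hβ (C.CritC_ne pz) z0 hs.1 e1,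
    C.CritC_pos a2 h2 hβ (C.CritC_ne pw) w0 hs.2.1 e2, fun u v hn => ?_⟩
  rw [(C.neh_sqrt (C.CritC_ne pz) (C.CritC_ne pw) hs.1 hs.2.1 (pz ▸ hs.2.2.1)
    (pw ▸ hs.2.2.2)).2, hn.En_eq, ← e]
  have := hc u v hn
  linarith

/-- The normalised data of a ground state. -/
theorem gs_data (h : C.GS l1 l2 m1 m2 β) : ∃ (z w : H) (s t : ℝ), C.P z = 1 ∧ C.P w = 1 ∧
    Sys m1 m2 β (C.q l1 z) (C.q l2 w) 1 1 (C.R z w) s t ∧
    C.LB l1 l2 m1 m2 β (s * C.q l1 z + t * C.q l2 w) ∧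
    m1 * s * C.R z w + β * t ≤ C.q l1 w := by
  obtain ⟨u, v, h⟩ := h
  have hn := h.neh
  obtain ⟨z, r, hr, pz, rfl⟩ := C.CritC_norm hn.1
  obtain ⟨w, ρ, hρ, pw, rfl⟩ := C.CritC_norm hn.2.1
  have e1 := hn.2.2.1
  have e2 := hn.2.2.2
  have e3 := C.picone_eqn h.1 h.2.2.1 w
  have r1 := C.R_smul r 1 z w
  have r2 := C.R_smul ρ 1 w w
  rw [one_smul] at r1 r2
  rw [r1, r2, R_self, pw] at e3
  rw [q_smul, P_smul, R_smul] at e1 e2
  rw [pz] at e1
  rw [pw] at e2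
  refine ⟨z, w, r ^ 2, ρ ^ 2, pz, pw, ⟨pow_pos hr 2, pow_pos hρ 2,
    mul_left_cancel₀ (pow_pos hr 2).ne' (by linarith),
    mul_left_cancel₀ (pow_pos hρ 2).ne' (by linarith)⟩, fun u v huv => ?_, by linarith⟩
  have := h.2.2.2.2 u v huv
  rw [hn.En_eq, huv.En_eq, q_smul, q_smul] at this
  linarith

theorem crit (a1 : C.Adm l1) (a2 : C.Adm l2) (h1 : 0 < m1) (h2 : 0 < m2) (hβ : 0 ≤ β)
    (h : ¬ C.LB l1 l2 m1 m2 β c')
    (H1 : ∀ z w, C.P z = 1 → C.P w = 1 → m1 * C.q l2 w ≤ β * C.R z w * C.q l1 z →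
      c' * m1 ≤ C.q l1 z ^ 2)
    (H2 : ∀ z w, C.P z = 1 → C.P w = 1 → m2 * C.q l1 z ≤ β * C.R z w * C.q l2 w →
      c' * m2 ≤ C.q l2 w ^ 2) : C.GS l1 l2 m1 m2 β := by
  obtain ⟨c, x, y, τ, s, t, u, v, hlt, hc, hM⟩ := C.crit_seq a1 a2 h1 h2 hβ h
  have d1 : m1 * y ≠ β * τ * x := fun e => (C.crit_deg a1 h1 hM H1 e).not_gt hlt
  have d2 : m2 * x ≠ β * τ * y := fun e =>
    (C.crit_deg a2 h2 hM.swap (fun z w hz hw hh => H2 w z hw hz (by rwa [C.R_comm])) e).not_gt hlt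
  have i1 : m1 * y - β * τ * x = t * (m1 * m2 - (β * τ) ^ 2) := by rw [hM.e1, hM.e2]; ring
  have i2 : m2 * x - β * τ * y = s * (m1 * m2 - (β * τ) ^ 2) := by rw [hM.e1, hM.e2]; ring
  have j1 := mul_ne_zero_iff.1 (i1 ▸ sub_ne_zero.2 d1)
  have j2 := mul_ne_zero_iff.1 (i2 ▸ sub_ne_zero.2 d2)
  obtain ⟨z, w, hz⟩ := C.crit_min a1 a2 h1 h2 hβ hc hM (hM.s0.lt_of_ne' j2.1)
    (hM.t0.lt_of_ne' j1.1) (sub_ne_zero.1 j1.2).symm
  exact C.crit_gs a1 a2 h1 h2 hβ hc hz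

end Ctx
end CritSys
end
end
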