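import Pool.Agent.Work.MP_80ee1d_an.Stmt

/-! Smooth bounded domains. -/

open scoped ContDiff

namespace CritSys

/-- A bounded connected open set `{F < 0}` with `F` smooth and `dF ≠ 0` on `{F = 0}`. -/
def SmoothDomain (Ω : Set E4) : Prop :=
  IsOpen Ω ∧ IsConnected Ω ∧ Bornology.IsBounded Ω ∧
    ∃ F : E4 → ℝ, ContDiff ℝ ∞ F ∧ Ω = {x | F x < 0} ∧ ∀ x, F x = 0 → fderiv ℝ F x ≠ 0

end CritSys
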