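import Pool.Agent.Work.MP_80ee1d_an.U.Defs
import Pool.Agent.Work.MP_80ee1d_an.Dich
import Pool.Agent.Work.MP_80ee1d_an.Weight

-- merged part: Pool.Agent.Work.MP_80ee1d_an.U.Geom
section
/-!
Domains of revolution about the last coordinate axis.

PLAN. `Prof.smoothDomain`: `F x = ‖x‖² - (x 3)² - g (x 3)` is smooth (`contDiff_norm_sq`, the coordinate
is `EuclideanSpace.proj 3`).  `‖x‖² - (x 3)² = (x 0)² + (x 1)² + (x 2)² ≥ 0`
(`EuclideanSpace.norm_sq_eq`, `Fin.sum_univ_four`).  If `F x = 0` and `dF x = 0`: along the curve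
`t ↦ x + t • (x - single 3 (x 3))` the derivative is `2 (‖x‖² - (x 3)²)`, so `g (x 3) = 0`; along
`t ↦ x + t • single 3 1` it is `- deriv g (x 3) ≠ 0`.  Bounded: `x 3 ∈ (a, b)` and `g` is bounded on
`[a, b]`.  Connected: every point is joined inside the set to `single 3 (x 3)` by a segment, and the
points `single 3 t`, `t ∈ (a, b)`, form a convex subset (`JoinedIn`, `IsPathConnected.isConnected`, or
`isPreconnected_of_forall`).
`prof_ell`: `ellP a b p t = a² / b² * ((t - (p - b)) * ((p + b) - t))`.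
`glue`: choose `c > 0` and `ρ > 0` with `c + ρ² < ρ'²`, `a < p - ρ`, `p + ρ < b` and `g₁, g₂ ≤ c` on
`[p - ρ, p + ρ]` (continuity, `g₁ p ≤ 0`, `g₂ p ≤ 0`).  Put `α t = smoothTransition ((p - t) / ρ)`,
`γ t = smoothTransition ((t - p) / ρ)`, `g = α g₁ + γ g₂ + (1 - α - γ) c`.  For `t ≤ p - ρ`, `g = g₁`; on
`[p - ρ, p]`, `γ = 0`, `g₁ ≤ g ≤ c` and `g > 0`; symmetric on the right.  At a zero of `g`, `t ≤ a` or
`b ≤ t`, where `g` agrees locally with `g₁` or `g₂` (`EventuallyEq.deriv_eq`).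
`‖x - single 3 p‖² = ‖x‖² - (x 3)² + (x 3 - p)²`.
-/

open Metric
open scoped ContDiff

noncomputable section
namespace CritSys

/-- Profiles: smooth, positive exactly on `(a, b)`, with simple zeros. -/
structure Prof (g : ℝ → ℝ) (a b : ℝ) : Prop where
  smooth : ContDiff ℝ ∞ g
  lt : a < b
  pos : ∀ t, 0 < g t ↔ a < t ∧ t < b
  zero : ∀ t, g t = 0 → deriv g t ≠ 0

/-- The domain of revolution with profile `g`. -/
def Rev (g : ℝ → ℝ) : Set E4 := {x | ‖x‖ ^ 2 - x 3 ^ 2 < g (x 3)}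

/-- The profile of an ellipsoid. -/
def ellP (a b p : ℝ) (t : ℝ) : ℝ := a ^ 2 * (1 - (t - p) ^ 2 / b ^ 2)

/-- The ellipsoid with semi-axes `a, a, a, b` and centre `(0, 0, 0, p)`. -/
def Ell (a b p : ℝ) : Set E4 := Rev (ellP a b p)

theorem Geom_sq (x : E4) : ‖x‖ ^ 2 - x 3 ^ 2 = x 0 ^ 2 + x 1 ^ 2 + x 2 ^ 2 := by
  rw [EuclideanSpace.real_norm_sq_eq, Fin.sum_univ_four]
  ring

theorem Geom_mem {g : ℝ → ℝ} {a b : ℝ} (h : Prof g a b) {x : E4} (hx : x ∈ Rev g) :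
    a < x 3 ∧ x 3 < b :=
  (h.pos _).1 (lt_of_le_of_lt (by rw [Geom_sq]; positivity) hx)

theorem Geom_line (x : E4) (t : ℝ) : (x + t • (x - EuclideanSpace.single 3 (x 3) : E4)) 3 = x 3 ∧
    ‖x + t • (x - EuclideanSpace.single 3 (x 3) : E4)‖ ^ 2 -
      (x + t • (x - EuclideanSpace.single 3 (x 3) : E4)) 3 ^ 2 =
        (1 + t) ^ 2 * (‖x‖ ^ 2 - x 3 ^ 2) := by
  rw [Geom_sq, Geom_sq]
  simp
  ring

theorem Geom_axis (x : E4) (t : ℝ) : (x + t • (EuclideanSpace.single 3 1 : E4)) 3 = x 3 + t ∧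
    ‖x + t • (EuclideanSpace.single 3 1 : E4)‖ ^ 2 -
      (x + t • (EuclideanSpace.single 3 1 : E4)) 3 ^ 2 = ‖x‖ ^ 2 - x 3 ^ 2 := by
  rw [Geom_sq, Geom_sq]
  simp

theorem Geom_conn {g : ℝ → ℝ} {a b : ℝ} (h : Prof g a b) : IsConnected (Rev g) := by
  have hA : ∀ t ∈ Set.Ioo a b, (0 : E4) + t • (EuclideanSpace.single 3 1 : E4) ∈ Rev g := by
    intro t ht
    obtain ⟨e1, e2⟩ := Geom_axis 0 t
    rw [Rev, Set.mem_ofPred_eq, e2, e1]
    simpa using (h.pos t).2 ht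
  have hm : (a + b) / 2 ∈ Set.Ioo a b := ⟨by linarith only [h, h.lt], by linarith [h.lt]⟩
  refine ⟨⟨_, hA _ hm⟩, isPreconnected_of_forall
    ((0 : E4) + ((a + b) / 2) • (EuclideanSpace.single 3 1 : E4)) fun y hy => ?_⟩
  refine ⟨(fun t : ℝ => (0 : E4) + t • (EuclideanSpace.single 3 1 : E4)) '' Set.Ioo a b ∪
    (fun t : ℝ => y + t • (y - EuclideanSpace.single 3 (y 3) : E4)) '' Set.Icc (-1) 0, ?_,
    Or.inl ⟨_, hm, rfl⟩, Or.inr ⟨0, ⟨by norm_num, le_rfl⟩, by simp⟩,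
    IsPreconnected.union (EuclideanSpace.single 3 (y 3)) ⟨y 3, Geom_mem h hy, ?_⟩
      ⟨-1, ⟨le_rfl, by norm_num⟩, by simp⟩ (isPreconnected_Ioo.image _ (by fun_prop))
      (isPreconnected_Icc.image _ (by fun_prop))⟩
  · rintro _ (⟨t, ht, rfl⟩ | ⟨t, ht, rfl⟩)
    · exact hA t ht
    · obtain ⟨e1, e2⟩ := Geom_line y t
      rw [Rev, Set.mem_ofPred_eq, e2, e1]
      refine lt_of_le_of_lt (mul_le_of_le_one_left (by rw [Geom_sq]; positivity) ?_) hy
      linarith only [ht, ht.1, ht.2, mul_nonneg_of_nonpos_of_nonpos (Mathlib.Tactic.Linarith.sub_nonpos_of_le ht.left) (Mathlib.Tactic.Linarith.sub_nonpos_of_le ht.right)]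
  · ext i
    simp

theorem Prof.smoothDomain {g : ℝ → ℝ} {a b : ℝ} (h : Prof g a b) : SmoothDomain (Rev g) := by
  have h3 : ContDiff ℝ ∞ fun x : E4 => x 3 := (EuclideanSpace.proj (3 : Fin 4) : E4 →L[ℝ] ℝ).contDiff
  have hF : ContDiff ℝ ∞ fun x : E4 => ‖x‖ ^ 2 - x 3 ^ 2 - g (x 3) :=
    ((contDiff_norm_sq ℝ).sub (h3.pow 2)).sub (h.smooth.comp h3)
  have e : Rev g = {x : E4 | ‖x‖ ^ 2 - x 3 ^ 2 - g (x 3) < 0} := Set.ext fun x =>
    (sub_neg (a := ‖x‖ ^ 2 - x 3 ^ 2)).symm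
  refine ⟨e ▸ isOpen_lt hF.continuous continuous_const, Geom_conn h, ?_, _, hF, e,
    fun x hx h0 => ?_⟩
  · obtain ⟨M, hM⟩ := (isCompact_Icc (a := a) (b := b)).bddAbove_image (f := fun t => t ^ 2 + g t)
      ((continuous_pow 2).add h.smooth.continuous).continuousOn
    refine isBounded_iff_forall_norm_le.2 ⟨M + 1, fun x hx => ?_⟩
    have h1 : x 3 ^ 2 + g (x 3) ≤ M :=
      hM ⟨x 3, ⟨(Geom_mem h hx).1.le, (Geom_mem h hx).2.le⟩, rfl⟩
    have h2 : ‖x‖ ^ 2 - x 3 ^ 2 < g (x 3) := hx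
    linarith only [h1, h2, sq_nonneg (‖x‖ - 1), sq_nonneg (‖x‖ - (1 : ℝ)), sq_nonneg ‖x‖]
  · have hd := (hF.differentiable (by simp) x).hasFDerivAt
    rw [h0] at hd
    have k1 : HasDerivAt _ _ _ := hd.hasLineDerivAt (x - EuclideanSpace.single 3 (x 3))
    have k2 : HasDerivAt _ _ _ := hd.hasLineDerivAt (EuclideanSpace.single 3 1)
    simp only [(Geom_line x _).2] at k1
    simp only [(Geom_line x _).1] at k1
    simp only [(Geom_axis x _).2] at k2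
    simp only [(Geom_axis x _).1] at k2
    have k3 := k1.unique ((((hasDerivAt_id' (0 : ℝ)).const_add 1).fun_pow 2).mul_const
      (‖x‖ ^ 2 - x 3 ^ 2) |>.sub_const (g (x 3)))
    have k4 := k2.unique (((h.smooth.differentiable (by simp) (x 3 + 0)).hasDerivAt.comp_const_add
      (x 3) 0).const_sub (‖x‖ ^ 2 - x 3 ^ 2))
    simp only [zero_apply, add_zero] at k3 k4
    norm_num at k3
    exact h.zero (x 3) (by linarith only [hx, k3]) (by linarith)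

theorem prof_ell {a b : ℝ} (ha : 0 < a) (hb : 0 < b) (p : ℝ) :
    Prof (ellP a b p) (p - b) (p + b) := by
  have hd : ∀ t, HasDerivAt (ellP a b p) (a ^ 2 * -(2 * (t - p) / b ^ 2)) t := fun t => by
    refine ((((((hasDerivAt_id' t).sub_const p).fun_pow 2).div_const (b ^ 2)).const_sub 1).const_mul
      (a ^ 2)).congr_deriv ?_
    simp
  refine ⟨by unfold ellP; fun_prop, by linarith, fun t => ?_, fun t ht h0 => ?_⟩
  · rw [ellP, mul_pos_iff_of_pos_left (by positivity), sub_pos, div_lt_one (by positivity),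
      sq_lt_sq, abs_of_pos hb, abs_lt]
    constructor <;> rintro ⟨h1, h2⟩ <;> constructor <;> linarith only [h1, h2]
  · rw [(hd t).deriv] at h0
    have h1 : t - p = 0 := by simpa [ha.ne', hb.ne'] using h0
    simp [ellP, h1, ha.ne'] at ht

theorem Geom_cv {u c : ℝ} (s : ℝ) (h : u ≤ c) :
    u ≤ s.smoothTransition * u + (1 - s.smoothTransition) * c ∧
      s.smoothTransition * u + (1 - s.smoothTransition) * c ≤ c := by
  have h1 := Real.smoothTransition.nonneg s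
  have h2 := Real.smoothTransition.le_one s
  constructor <;> linarith only [h, h2, h1, mul_nonneg_of_nonpos_of_nonpos (Mathlib.Tactic.Linarith.sub_nonpos_of_le h) (Mathlib.Tactic.Linarith.sub_nonpos_of_le h2), mul_nonneg_of_nonpos_of_nonpos (Mathlib.Tactic.Linarith.sub_nonpos_of_le h) (Mathlib.Tactic.Linarith.sub_nonpos_of_le h1)]

theorem glue {g₁ g₂ : ℝ → ℝ} {a p b : ℝ} (h1 : Prof g₁ a p) (h2 : Prof g₂ p b) {ρ' : ℝ}
    (hρ' : 0 < ρ') : ∃ (g : ℝ → ℝ) (ρ : ℝ), 0 < ρ ∧ Prof g a b ∧ Rev g₁ ⊆ Rev g ∧ Rev g₂ ⊆ Rev g ∧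
      ∀ x ∈ Rev g, x ∉ ball (EuclideanSpace.single 3 p : E4) ρ' →
        (x 3 < p - ρ ∧ x ∈ Rev g₁) ∨ (p + ρ < x 3 ∧ x ∈ Rev g₂) := by
  obtain ⟨c, hc⟩ : ∃ c, c = ρ' ^ 2 / 2 := ⟨_, rfl⟩
  have c0 : 0 < c := by
    rw [hc]
    positivity
  have p1 : g₁ p < c := (not_lt.1 fun k => ((h1.pos p).1 k).2.false).trans_lt c0
  have p2 : g₂ p < c := (not_lt.1 fun k => ((h2.pos p).1 k).1.false).trans_lt c0
  obtain ⟨δ, hδ, hb⟩ := Metric.eventually_nhds_iff.1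
    (((h1.smooth.continuous.continuousAt.eventually (gt_mem_nhds p1)).and
      (h2.smooth.continuous.continuousAt.eventually (gt_mem_nhds p2))).and
      (Ioo_mem_nhds h1.lt h2.lt))
  obtain ⟨ρ, r0, r1, r2⟩ : ∃ ρ, 0 < ρ ∧ ρ < δ ∧ ρ ≤ ρ' / 2 :=
    ⟨min (δ / 2) (ρ' / 2), by positivity, (min_le_left _ _).trans_lt (half_lt_self hδ),
      min_le_right _ _⟩
  have hm : ∀ t, p - ρ ≤ t → t ≤ p + ρ → (g₁ t < c ∧ g₂ t < c) ∧ a < t ∧ t < b := fun t k1 k2 =>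
    hb (by rw [Real.dist_eq, abs_lt]; constructor <;> linarith only [r1, k1, k2])
  have ha := (hm (p - ρ) le_rfl (by linarith)).2.1
  have hb' := (hm (p + ρ) (by linarith only [r0]) le_rfl).2.2
  obtain ⟨g, hg⟩ : ∃ g : ℝ → ℝ, g = fun t => ((p - t) / ρ).smoothTransition * g₁ t +
      ((t - p) / ρ).smoothTransition * g₂ t +
      (1 - ((p - t) / ρ).smoothTransition - ((t - p) / ρ).smoothTransition) * c := ⟨_, rfl⟩
  have gl : ∀ t ≤ p, g t = ((p - t) / ρ).smoothTransition * g₁ t +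
      (1 - ((p - t) / ρ).smoothTransition) * c := fun t ht => by
    rw [hg]
    simp only [Real.smoothTransition.zero_of_nonpos
      (div_nonpos_of_nonpos_of_nonneg (sub_nonpos.2 ht) r0.le), zero_mul, add_zero, sub_zero]
  have gr : ∀ t ≥ p, g t = ((t - p) / ρ).smoothTransition * g₂ t +
      (1 - ((t - p) / ρ).smoothTransition) * c := fun t ht => by
    rw [hg]
    simp only [Real.smoothTransition.zero_of_nonpos
      (div_nonpos_of_nonpos_of_nonneg (sub_nonpos.2 ht) r0.le), zero_mul, zero_add, sub_zero]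
  have gl' : ∀ t ≤ p - ρ, g t = g₁ t := fun t ht => by
    rw [gl t (by linarith only [r0, ht]), Real.smoothTransition.one_of_one_le ((one_le_div r0).2 (by linarith only [ht]))]
    ring
  have gr' : ∀ t ≥ p + ρ, g t = g₂ t := fun t ht => by
    rw [gr t (by linarith only [r0, ht]), Real.smoothTransition.one_of_one_le ((one_le_div r0).2 (by linarith only [ht]))]
    ring
  have l1 : ∀ t ≤ p, g₁ t ≤ g t := fun t ht => by
    rcases le_total t (p - ρ) with k | k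
    · exact (gl' t k).ge
    · exact gl t ht ▸ (Geom_cv _ (hm t k (by linarith only [r0, ht])).1.1.le).1
  have l2 : ∀ t ≥ p, g₂ t ≤ g t := fun t ht => by
    rcases le_total t (p + ρ) with k | k
    · exact gr t ht ▸ (Geom_cv _ (hm t (by linarith only [r0, ht]) k).1.2.le).1
    · exact (gr' t k).ge
  have mid : ∀ t, p - ρ ≤ t → t ≤ p + ρ → 0 < g t ∧ g t ≤ c := fun t k1 k2 => by
    rcases lt_trichotomy t p with k | rfl | k
    · exact ⟨((h1.pos t).2 ⟨(hm t k1 k2).2.1, k⟩).trans_le (l1 t k.le),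
        gl t k.le ▸ (Geom_cv _ (hm t k1 k2).1.1.le).2⟩
    · rw [gl t le_rfl]
      simpa using c0
    · exact ⟨((h2.pos t).2 ⟨k, (hm t k1 k2).2.2⟩).trans_le (l2 t k.le),
        gr t k.le ▸ (Geom_cv _ (hm t k1 k2).1.2.le).2⟩
  have tri : ∀ t, t < p - ρ ∨ p + ρ < t ∨ (p - ρ ≤ t ∧ t ≤ p + ρ) := fun t => by
    by_contra k
    push Not at k
    exact (k.2.2 k.1).not_ge k.2.1
  refine ⟨g, ρ, r0, ⟨?_, h1.lt.trans h2.lt, fun t => ?_, fun t ht => ?_⟩,
    fun x hx => lt_of_lt_of_le hx (l1 _ (Geom_mem h1 hx).2.le),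
    fun x hx => lt_of_lt_of_le hx (l2 _ (Geom_mem h2 hx).1.le), fun x hx hx' => ?_⟩
  · have s1 : ContDiff ℝ ∞ fun t => ((p - t) / ρ).smoothTransition :=
      Real.smoothTransition.contDiff.comp (by fun_prop)
    have s2 : ContDiff ℝ ∞ fun t => ((t - p) / ρ).smoothTransition :=
      Real.smoothTransition.contDiff.comp (by fun_prop)
    rw [hg]
    exact ((s1.mul h1.smooth).add (s2.mul h2.smooth)).add
      (((contDiff_const.sub s1).sub s2).mul contDiff_const)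
  · rcases tri t with k | k | k
    · rw [gl' t k.le, h1.pos]
      exact and_congr_right fun _ => ⟨fun _ => by linarith only [r0, hb', k], fun _ => by linarith only [r0, k]⟩
    · rw [gr' t k.le, h2.pos]
      exact and_congr_left fun _ => ⟨fun _ => by linarith only [r0, ha, k], fun _ => by linarith only [r0, k]⟩
    · exact iff_of_true (mid t k.1 k.2).1 (hm t k.1 k.2).2
  · rcases tri t with k | k | k
    · rw [Filter.EventuallyEq.deriv_eq ((eventually_lt_nhds k).mono fun s hs => gl' s hs.le)]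
      exact h1.zero t ((gl' t k.le).symm.trans ht)
    · rw [Filter.EventuallyEq.deriv_eq ((eventually_gt_nhds k).mono fun s hs => gr' s hs.le)]
      exact h2.zero t ((gr' t k.le).symm.trans ht)
    · exact absurd ht (mid t k.1 k.2).1.ne'
  · have hx0 : ‖x‖ ^ 2 - x 3 ^ 2 < g (x 3) := hx
    rcases tri (x 3) with k | k | k
    · exact Or.inl ⟨k, hx0.trans_eq (gl' _ k.le)⟩
    · exact Or.inr ⟨k, hx0.trans_eq (gr' _ k.le)⟩
    · refine absurd (mem_ball_iff_norm.2 (lt_of_pow_lt_pow_left₀ 2 hρ'.le ?_)) hx'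
      have e : ‖x - (EuclideanSpace.single 3 p : E4)‖ ^ 2 = ‖x‖ ^ 2 - x 3 ^ 2 + (x 3 - p) ^ 2 := by
        rw [Geom_sq, EuclideanSpace.real_norm_sq_eq, Fin.sum_univ_four]
        simp
      have e2 : (x 3 - p) ^ 2 ≤ (ρ' / 2) ^ 2 := sq_le_sq' (by linarith only [r2, k, k.1]) (by linarith only [r2, k, k.2])
      rw [e]
      linarith only [hc, c0, hx0, e2, mid, k, (mid _ k.1 k.2).2]

end CritSys
end
end

-- merged part: Pool.Agent.Work.MP_80ee1d_an.U.Lin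
section
/-!
Anisotropic dilations of test functions and a one-dimensional Poincare inequality.

PLAN. `lin_tst`: let `L : E4 ≃L[ℝ] E4` be the diagonal map `diag (α⁻¹, α⁻¹, α⁻¹, β⁻¹)`
(`Matrix.toEuclideanLin (Matrix.diagonal _)` or `PiLp.continuousLinearEquiv` with `LinearEquiv.piCongrRight`;
the determinant is `α⁻³ β⁻¹`), `A x = L (x - single 3 p') + single 3 p`, `g = f ∘ A`.  `A` is a
homeomorphism, so `tsupport g ⊆ A ⁻¹' tsupport f` is compact.  Change of variables: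
`∫ F (A x) = α³ β ∫ F` (`integral_add_right_eq_self`, `integral_sub_right_eq_self`,
`Measure.map_linearMap_addHaar_eq_smul_addHaar` or `integral_comp_linearEquiv`-type lemmas, see
`Scale_int`).  `gradient g x i = fderiv g x (single i 1) = c i * gradient f (A x) i` (`inner_gradient`,
chain rule), `‖v‖² = ∑ v i ²`, so `‖∇g‖² - (∂₃ g)² = α⁻² (‖∇f‖² - (∂₃ f)²) ∘ A`; `norm_sq_ofT`; all
integrands are continuous with compact support.
`poin_tst`: `Hardy_int` for `x ↦ x 0 * f x ²` and `v = single 0 1` gives `∫ (f² + 2 x₀ f ∂₀ f) = 0`;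
`|x 0| ≤ 1` where `f x ≠ 0`, so `f² + 2 x₀ f ∂₀ f ≥ f² / 2 - 2 (∂₀ f)²`, and
`(∂₀ f)² ≤ ‖∇f‖² - (∂₃ f)²`.
-/

open MeasureTheory Filter Topology Metric
open scoped ContDiff RealInnerProductSpace ENNReal

noncomputable section
namespace CritSys

/-- `∫ f²`. -/
def I2 (f : Tst) : ℝ := ∫ x, (f : E4 → ℝ) x ^ 2

/-- `∫ (∂₃ f)²`. -/
def Iz (f : Tst) : ℝ := ∫ x, gradient (f : E4 → ℝ) x 3 ^ 2

/-- `(∫ f⁴)^(1/2)`. -/
def N4 (f : Tst) : ℝ := ‖val (ofT f)‖ ^ 2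

theorem Iz_nonneg (f : Tst) : 0 ≤ Iz f := integral_nonneg fun _ => sq_nonneg _

theorem Lin_ex (c : Fin 4 → ℝ) (hc : ∀ i, 0 < c i) : ∃ L : E4 ≃L[ℝ] E4,
    (∀ x i, L x i = c i * x i) ∧ ∀ F : E4 → ℝ, ∫ x, F (L x) = (∏ i, c i)⁻¹ * ∫ x, F x := by
  let M : E4 →ₗ[ℝ] E4 := Matrix.toLpLin 2 2 (Matrix.diagonal c)
  have hp : 0 < ∏ i, c i := Finset.prod_pos fun i _ => hc i
  have hd : LinearMap.det M = ∏ i, c i := by
    rw [LinearMap.det_toLpLin, Matrix.det_diagonal]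
  have hd0 : LinearMap.det M ≠ 0 := hd ▸ hp.ne'
  let L : E4 ≃L[ℝ] E4 := (M.equivOfDetNeZero hd0).toContinuousLinearEquiv
  have hL : ∀ x, L x = M x := fun x => rfl
  refine ⟨L, fun x i => ?_, fun F => ?_⟩
  · rw [hL]
    simp [M, Matrix.toLpLin_apply, Matrix.mulVec_diagonal]
  · have h1 := integral_map_equiv (μ := (volume : Measure E4))
      L.toHomeomorph.toMeasurableEquiv F
    have h2 : Measure.map L.toHomeomorph.toMeasurableEquiv (volume : Measure E4) =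
        Measure.map M volume := rfl
    rw [h2, Measure.map_linearMap_addHaar_eq_smul_addHaar _ hd0, integral_smul_measure, hd,
      ENNReal.toReal_ofReal (abs_nonneg _), abs_of_pos (inv_pos.2 hp), smul_eq_mul] at h1
    exact h1.symm

theorem Lin_grad (f : E4 → ℝ) (x : E4) (i : Fin 4) :
    gradient f x i = fderiv ℝ f x (EuclideanSpace.single i 1) := by
  rw [← inner_gradient, EuclideanSpace.inner_single_right]
  simp

theorem Lin_int (f : Tst) (i : Fin 4) : Integrable fun x => gradient (f : E4 → ℝ) x i ^ 2 := by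
  refine Continuous.integrable_of_hasCompactSupport ?_
    (HasCompactSupport.intro f.2.2 fun x hx => ?_)
  · exact ((EuclideanSpace.proj (𝕜 := ℝ) i).continuous.comp (continuous_gradient f.2.1)).pow 2
  · rw [gradient_eq_zero_of_notMem hx]
    simp

theorem Lin_norm (f : Tst) : ‖ofT f‖ ^ 2 - Iz f = (∫ x, gradient (f : E4 → ℝ) x 0 ^ 2) +
    (∫ x, gradient (f : E4 → ℝ) x 1 ^ 2) + ∫ x, gradient (f : E4 → ℝ) x 2 ^ 2 := by
  rw [norm_sq_ofT, Iz]
  simp only [EuclideanSpace.real_norm_sq_eq]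
  rw [integral_finsetSum _ fun i _ => Lin_int f i, Fin.sum_univ_four]
  ring

theorem Lin_ell {a b p : ℝ} {x : E4} :
    x ∈ Ell a b p ↔ x 0 ^ 2 + x 1 ^ 2 + x 2 ^ 2 < a ^ 2 * (1 - (x 3 - p) ^ 2 / b ^ 2) := by
  show ‖x‖ ^ 2 - x 3 ^ 2 < a ^ 2 * (1 - (x 3 - p) ^ 2 / b ^ 2) ↔ _
  rw [EuclideanSpace.real_norm_sq_eq, Fin.sum_univ_four, add_sub_cancel_right]

theorem lin_tst (f : Tst) {α β : ℝ} (hα : 0 < α) (hβ : 0 < β) (p p' : ℝ) : ∃ g : Tst,
    (∀ a b : ℝ, 0 < a → 0 < b → tsupport (f : E4 → ℝ) ⊆ Ell a b p →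
      tsupport (g : E4 → ℝ) ⊆ Ell (α * a) (β * b) p') ∧
    I2 g = α ^ 3 * β * I2 f ∧ N4 g = √(α ^ 3 * β) * N4 f ∧ Iz g = α ^ 3 / β * Iz f ∧
    ‖ofT g‖ ^ 2 - Iz g = α * β * (‖ofT f‖ ^ 2 - Iz f) := by
  obtain ⟨L, hL, hI⟩ := Lin_ex ![α⁻¹, α⁻¹, α⁻¹, β⁻¹] fun i => by
    fin_cases i <;> simp [hα, hβ]
  have hp : (∏ i, (![α⁻¹, α⁻¹, α⁻¹, β⁻¹] : Fin 4 → ℝ) i)⁻¹ = α ^ 3 * β := by
    rw [Fin.prod_univ_four]
    simp
    ring
  rw [hp] at hI
  set u : E4 := EuclideanSpace.single 3 p' with hu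
  set v : E4 := EuclideanSpace.single 3 p with hv
  let T : E4 ≃ₜ E4 := ((Homeomorph.subRight u).trans L.toHomeomorph).trans (Homeomorph.addRight v)
  have hT : ∀ x, T x = L (x - u) + v := fun _ => rfl
  have hint : ∀ F : E4 → ℝ, ∫ x, F (T x) = α ^ 3 * β * ∫ x, F x := fun F => by
    simp only [hT]
    rw [integral_sub_right_eq_self (fun x => F (L x + v)) u, hI fun x => F (x + v),
      integral_add_right_eq_self F v]
  have hs : ContDiff ℝ ∞ T := (L.contDiff.comp (contDiff_id.sub contDiff_const)).add contDiff_const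
  let g : Tst := ⟨(f : E4 → ℝ) ∘ T, f.2.1.comp hs, f.2.2.comp_homeomorph T⟩
  have hg : ∀ x, (g : E4 → ℝ) x = (f : E4 → ℝ) (T x) := fun _ => rfl
  have hgr : ∀ x i, gradient (g : E4 → ℝ) x i =
      (![α⁻¹, α⁻¹, α⁻¹, β⁻¹] : Fin 4 → ℝ) i * gradient (f : E4 → ℝ) (T x) i := fun x i => by
    have a1 : HasFDerivAt T (L : E4 →L[ℝ] E4) x := by
      have a0 := ((L : E4 →L[ℝ] E4).hasFDerivAt.comp x
        ((hasFDerivAt_id (𝕜 := ℝ) x).sub_const u)).add_const v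
      rw [ContinuousLinearMap.comp_id] at a0
      exact a0
    have a2 := ((f.2.1.differentiable (by simp) (T x)).hasFDerivAt.comp x a1).fderiv
    have a3 : L (EuclideanSpace.single i 1) =
        (![α⁻¹, α⁻¹, α⁻¹, β⁻¹] : Fin 4 → ℝ) i • EuclideanSpace.single i (1 : ℝ) := by
      ext j
      rw [hL, PiLp.smul_apply, smul_eq_mul]
      by_cases c : j = i
      · rw [c]
      · simp [c]
    rw [Lin_grad, Lin_grad]
    show fderiv ℝ ((f : E4 → ℝ) ∘ T) x _ = _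
    rw [a2, ContinuousLinearMap.comp_apply, ContinuousLinearEquiv.coe_coe, a3, map_smul,
      smul_eq_mul]
  have hgi : ∀ i, ∫ x, gradient (g : E4 → ℝ) x i ^ 2 =
      (![α⁻¹, α⁻¹, α⁻¹, β⁻¹] : Fin 4 → ℝ) i ^ 2 *
        (α ^ 3 * β * ∫ x, gradient (f : E4 → ℝ) x i ^ 2) := fun i => by
    simp only [hgr, mul_pow]
    rw [integral_const_mul, hint fun x => gradient (f : E4 → ℝ) x i ^ 2]
  refine ⟨g, fun a b ha hb hab x hx => ?_, hint fun x => (f : E4 → ℝ) x ^ 2, ?_, ?_, ?_⟩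
  · have h1 : x ∈ tsupport ((f : E4 → ℝ) ∘ T) := hx
    rw [tsupport_comp_eq_preimage (f : E4 → ℝ) T] at h1
    have h2 := Lin_ell.1 (hab h1)
    have e0 : T x 0 = α⁻¹ * x 0 := by simp [hT, hL, hu, hv]
    have e1 : T x 1 = α⁻¹ * x 1 := by simp [hT, hL, hu, hv]
    have e2 : T x 2 = α⁻¹ * x 2 := by simp [hT, hL, hu, hv]
    have e3 : T x 3 = β⁻¹ * (x 3 - p') + p := by simp [hT, hL, hu, hv, mul_sub]
    rw [e0, e1, e2, e3] at h2
    have h3 := mul_lt_mul_of_pos_left h2 (pow_pos hα 2)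
    have e4 : α ^ 2 * ((α⁻¹ * x 0) ^ 2 + (α⁻¹ * x 1) ^ 2 + (α⁻¹ * x 2) ^ 2) =
        x 0 ^ 2 + x 1 ^ 2 + x 2 ^ 2 := by field_simp
    have e5 : α ^ 2 * (a ^ 2 * (1 - (β⁻¹ * (x 3 - p') + p - p) ^ 2 / b ^ 2)) =
        (α * a) ^ 2 * (1 - (x 3 - p') ^ 2 / (β * b) ^ 2) := by
      rw [add_sub_cancel_right]
      field_simp
    rw [e4, e5] at h3
    exact Lin_ell.2 h3
  · have h1 : ‖val (ofT g)‖ ^ 4 = α ^ 3 * β * ‖val (ofT f)‖ ^ 4 := by
      rw [norm_val_ofT, norm_val_ofT]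
      exact hint fun x => (f : E4 → ℝ) x ^ 4
    have h2 : (0 : ℝ) ≤ α ^ 3 * β := by positivity
    rw [N4, N4, ← pow_left_inj₀ (by positivity) (by positivity) two_ne_zero, mul_pow,
      Real.sq_sqrt h2, ← pow_mul, ← pow_mul]
    exact h1
  · rw [Iz, Iz, hgi]
    show β⁻¹ ^ 2 * _ = _
    field_simp
  · rw [Lin_norm, Lin_norm, hgi, hgi, hgi]
    show α⁻¹ ^ 2 * _ + α⁻¹ ^ 2 * _ + α⁻¹ ^ 2 * _ = _
    field_simp

theorem poin_tst (f : Tst) (hf : tsupport (f : E4 → ℝ) ⊆ Ell 1 1 0) :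
    I2 f ≤ 4 * (‖ofT f‖ ^ 2 - Iz f) := by
  have hs : ContDiff ℝ ∞ fun x : E4 => x 0 * ((f : E4 → ℝ) x * (f : E4 → ℝ) x) :=
    (EuclideanSpace.proj (𝕜 := ℝ) (0 : Fin 4)).contDiff.mul (f.2.1.mul f.2.1)
  have hc : HasCompactSupport fun x : E4 => x 0 * ((f : E4 → ℝ) x * (f : E4 → ℝ) x) :=
    HasCompactSupport.intro f.2.2 fun x hx => by
      rw [image_eq_zero_of_notMem_tsupport hx, mul_zero, mul_zero]
  obtain ⟨h1, h2⟩ := Hardy_int hs hc (EuclideanSpace.single 0 1)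
  have hd : ∀ x : E4, fderiv ℝ (fun x : E4 => x 0 * ((f : E4 → ℝ) x * (f : E4 → ℝ) x)) x
      (EuclideanSpace.single 0 1) = (f : E4 → ℝ) x ^ 2 +
        2 * x 0 * (f : E4 → ℝ) x * gradient (f : E4 → ℝ) x 0 := fun x => by
    have h3 := (EuclideanSpace.proj (𝕜 := ℝ) (0 : Fin 4)).hasFDerivAt (x := x)
    have h4 := (f.2.1.differentiable (by simp) x).hasFDerivAt
    have h5 : HasFDerivAt (fun x : E4 => x 0 * ((f : E4 → ℝ) x * (f : E4 → ℝ) x)) _ x :=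
      h3.mul (h4.mul h4)
    rw [h5.fderiv, Lin_grad]
    simp
    ring
  have h3 : Integrable fun x => (f : E4 → ℝ) x ^ 2 :=
    (f.2.1.continuous.pow 2).integrable_of_hasCompactSupport
      (HasCompactSupport.intro f.2.2 fun x hx => by
        simp [image_eq_zero_of_notMem_tsupport hx])
  have h4 : ∫ x, (1 / 2 * (f : E4 → ℝ) x ^ 2 - 2 * gradient (f : E4 → ℝ) x 0 ^ 2) ≤ 0 := by
    rw [← h2]
    refine integral_mono ((h3.const_mul _).sub ((Lin_int f 0).const_mul _)) h1 fun x => ?_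
    show _ ≤ fderiv ℝ _ x _
    rw [hd]
    by_cases c : x ∈ tsupport (f : E4 → ℝ)
    · have h5 := Lin_ell.1 (hf c)
      have h6 : x 0 ^ 2 ≤ 1 := by
        have h7 : 0 ≤ (x 3 - 0) ^ 2 / 1 ^ 2 := by positivity
        linarith only [h5, sq_nonneg (x 1), sq_nonneg (x 2), sq_nonneg (x.ofLp (2 : Fin (4 : ℕ))), sq_nonneg (x.ofLp (1 : Fin (4 : ℕ))), sq_nonneg ((1 : (fun x => ℝ) (3 : Fin (4 : ℕ))) * x.ofLp (3 : Fin (4 : ℕ)) - (1 : (fun x => ℝ) (3 : Fin (4 : ℕ))) * (0 : (fun x => ℝ) (3 : Fin (4 : ℕ))))]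
      nlinarith only [h6, sq_nonneg (x 0 * (f : E4 → ℝ) x + 2 * gradient (f : E4 → ℝ) x 0),
        mul_le_mul_of_nonneg_right h6 (sq_nonneg ((f : E4 → ℝ) x))]
    · rw [image_eq_zero_of_notMem_tsupport c]
      nlinarith only [sq_nonneg (gradient (f : E4 → ℝ) x 0)]
  rw [integral_sub (h3.const_mul _) ((Lin_int f 0).const_mul _), integral_const_mul,
    integral_const_mul] at h4
  have h5 : 0 ≤ ∫ x, gradient (f : E4 → ℝ) x 1 ^ 2 := integral_nonneg fun _ => sq_nonneg _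
  have h6 : 0 ≤ ∫ x, gradient (f : E4 → ℝ) x 2 ^ 2 := integral_nonneg fun _ => sq_nonneg _
  rw [Lin_norm, I2]
  linarith only [h4, h5, h6]

end CritSys
end
end
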