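import Pool.Agent.Work.MP_80ee1d_an.U.Lin
import Pool.Agent.Work.MP_80ee1d_an.Lim
import Pool.Agent.Work.MP_80ee1d_an.Dich

/-!
The `L²` mass on `H0 Ω`, small balls and multipliers.

PLAN. For `Ω ⊆ ball 0 R` and `u ∈ H0 Ω`, `Md u = T4 (WnullI R) (WnullI R) (val u) (val u)`
(`H0_zero_outside`, `Wnull_ball_eq`); `T4_integrable`, `T4_tendsto`, `mem_H0_iff`, `val_ofT`.
`small_ball`: with the indicator `J` of `ball P ρ` in `L⁴` (`indicatorConstLp`),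
`Md w = T4 J J (val w) (val w) ≤ ‖J‖² ‖val w‖²` (`T4A_sq`), `‖J‖⁴ = vol (ball P ρ) = ρ⁴ vol (ball 0 1)`
(`Measure.addHaar_ball`), `S0_le`.
`mul_H0'`: `mul_D` gives `w`.  For tests `f n → u` supported in `Ω`, the products `ρ * f n` are tests
supported in `Ω'`; the map `u ↦ w` is linear and bounded (`‖w‖ ≤ ‖val u‖ ‖∇ρ‖₄ + c ‖u‖`), so
`ofT (ρ f n) → w`.  Alternatively repeat the proof of `mulComp` (see `comp_seq`), or use
`limit_of_bdd` with `val_inj`.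
-/

open MeasureTheory Filter Topology Metric
open scoped ContDiff RealInnerProductSpace ENNReal

noncomputable section
namespace CritSys

/-- `∫ u²`. -/
def Md (u : D) : ℝ := ∫ x, val u x ^ 2

/-- `∫ |∇u|² - l u²`. -/
def qd (l : ℝ) (u : D) : ℝ := ‖u‖ ^ 2 - l * Md u

theorem Md_nonneg (u : D) : 0 ≤ Md u := integral_nonneg fun _ => sq_nonneg _

theorem Md_ofT (f : Tst) : Md (ofT f) = I2 f :=
  integral_congr_ae ((val_ofT f).mono fun x hx => by simp only [hx])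

theorem Md_smul (c : ℝ) (u : D) : Md (c • u) = c ^ 2 * Md u := by
  unfold Md
  rw [← integral_const_mul]
  refine integral_congr_ae ?_
  rw [map_smul]
  filter_upwards [Lp.coeFn_smul c (val u)] with x hx
  rw [hx, Pi.smul_apply, smul_eq_mul, mul_pow]

theorem Md_ae {s : Set E4} {J a : L4 (volume : Measure E4)}
    (hJ : ∀ᵐ x, J x = s.indicator (fun _ => (1 : ℝ)) x) (ha : ∀ᵐ x, x ∉ s → a x = 0) :
    (fun x => J x * J x * a x * a x) =ᵐ[volume] fun x => a x ^ 2 := by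
  filter_upwards [hJ, ha] with x h1 h2
  by_cases hx : x ∈ s
  · rw [h1, Set.indicator_of_mem hx]
    ring
  · rw [h2 hx]
    ring

theorem Md_T4 {Ω : Set E4} {R : ℝ} (hR : Ω ⊆ ball (0 : E4) R) {u : D} (hu : u ∈ H0 Ω) :
    Md u = T4 (WnullI R) (WnullI R) (val u) (val u) :=
  (integral_congr_ae
    (Md_ae (WnullI_ae R) ((H0_zero_outside hu).mono fun _ hx h => (hx fun h' => h (hR h')).1))).symm

theorem Md_int {Ω : Set E4} (hb : Bornology.IsBounded Ω) {u : D} (hu : u ∈ H0 Ω) :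
    Integrable fun x => val u x ^ 2 := by
  obtain ⟨R, hR⟩ := hb.subset_ball (0 : E4)
  exact (T4_integrable _ _ _ _).congr
    (Md_ae (WnullI_ae R) ((H0_zero_outside hu).mono fun x hx h => (hx fun h' => h (hR h')).1))

theorem H0_approx {Ω : Set E4} (hb : Bornology.IsBounded Ω) {u : D} (hu : u ∈ H0 Ω) :
    ∃ f : ℕ → Tst, (∀ n, tsupport (f n : E4 → ℝ) ⊆ Ω) ∧
      Tendsto (fun n => ‖ofT (f n)‖ ^ 2) atTop (𝓝 (‖u‖ ^ 2)) ∧
      Tendsto (fun n => I2 (f n)) atTop (𝓝 (Md u)) ∧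
      Tendsto (fun n => N4 (f n)) atTop (𝓝 (‖val u‖ ^ 2)) := by
  obtain ⟨R, hR⟩ := hb.subset_ball (0 : E4)
  obtain ⟨f, hf, hf'⟩ := mem_H0_iff.1 hu
  have hv := (val.continuous.tendsto u).comp hf'
  refine ⟨f, hf, hf'.norm.pow 2, ?_, hv.norm.pow 2⟩
  rw [Md_T4 hR hu]
  refine (T4_tendsto tendsto_const_nhds tendsto_const_nhds hv hv).congr fun n => ?_
  rw [← Md_ofT, Md_T4 hR (ofT_mem_H0 (hf n))]
  rfl

theorem small_ball {κ : ℝ} (hκ : 0 < κ) : ∃ ρ : ℝ, 0 < ρ ∧ ∀ (P : E4) (w : D),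
    (∀ᵐ x, x ∉ ball P ρ → val w x = 0) → Md w ≤ κ * ‖w‖ ^ 2 := by
  obtain ⟨V, hV⟩ : ∃ V : ℝ, V = (volume : Measure E4).real (ball (0 : E4) 1) := ⟨_, rfl⟩
  have hV0 : 0 ≤ V := hV ▸ measureReal_nonneg
  have hS := S0_pos
  refine ⟨min 1 (κ * S0 / (V + 1)), lt_min one_pos (by positivity), fun P w hw => ?_⟩
  set ρ := min 1 (κ * S0 / (V + 1)) with hρ
  have hρ0 : 0 < ρ := lt_min one_pos (by positivity)
  have hρ1 : ρ ≤ 1 := min_le_left _ _
  have hρ2 : ρ * (V + 1) ≤ κ * S0 := (le_div_iff₀ (by positivity)).1 (min_le_right _ _)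
  let J : L4 (volume : Measure E4) :=
    indicatorConstLp 4 (measurableSet_ball (x := P) (ε := ρ)) measure_ball_lt_top.ne (1 : ℝ)
  have hJ : ∀ᵐ x, J x = (ball P ρ).indicator (fun _ => (1 : ℝ)) x := indicatorConstLp_coeFn
  have h1 : Md w = T4 J J (val w) (val w) := (integral_congr_ae (Md_ae hJ hw)).symm
  have h2 : ‖J‖ ^ 4 = ρ ^ 4 * V := by
    rw [← T4_self]
    have e : T4 J J J J = ∫ x, (ball P ρ).indicator (fun _ => (1 : ℝ)) x := by
      refine integral_congr_ae ?_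
      filter_upwards [hJ] with x hx
      rw [hx]
      by_cases c : x ∈ ball P ρ
      · simp [c]
      · simp [c]
    rw [e, integral_indicator measurableSet_ball, setIntegral_const, smul_eq_mul, mul_one, hV,
      measureReal_def, measureReal_def, Measure.addHaar_ball _ P hρ0.le, ENNReal.toReal_mul,
      ENNReal.toReal_ofReal (by positivity)]
    simp
  have h3 : ‖J‖ ^ 2 ≤ κ * S0 := by
    refine le_trans (abs_le_of_sq_le_sq' ?_ (by positivity)).2 hρ2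
    have a1 : ρ ^ 4 ≤ ρ ^ 2 := pow_le_pow_of_le_one hρ0.le hρ1 (by norm_num)
    have a2 : V ≤ (V + 1) ^ 2 := by nlinarith
    calc (‖J‖ ^ 2) ^ 2 = ρ ^ 4 * V := by rw [← h2]; ring
      _ ≤ ρ ^ 2 * (V + 1) ^ 2 := mul_le_mul a1 a2 hV0 (by positivity)
      _ = _ := by ring
  have h4 := T4A_sq J (val w)
  have h5 := S0_le w
  calc Md w ≤ ‖J‖ ^ 2 * ‖val w‖ ^ 2 := h1 ▸ h4
    _ ≤ κ * S0 * ‖val w‖ ^ 2 := mul_le_mul_of_nonneg_right h3 (by positivity)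
    _ = κ * (S0 * ‖val w‖ ^ 2) := by ring
    _ ≤ _ := mul_le_mul_of_nonneg_left h5 hκ.le

theorem Md_bound {ρ : E4 → ℝ} (hρ : Mult ρ) : ∃ K : ℝ, ∀ u w : D,
    (∀ᵐ x, grd w x = val u x • gradient ρ x + ρ x • grd u x) → ‖w‖ ^ 2 ≤ K * ‖u‖ ^ 2 := by
  obtain ⟨-, ⟨c, hc⟩, h4⟩ := hρ
  let F : L4 (volume : Measure E4) := h4.norm.toLp _
  have hF : ∀ᵐ x, F x = ‖gradient ρ x‖ := h4.norm.coeFn_toLp
  have hS := S0_pos
  refine ⟨2 * (‖F‖ ^ 2 / S0) + 2 * c ^ 2, fun u w h => ?_⟩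
  have i1 := T4_integrable F F (val u) (val u)
  have i2 : Integrable fun x => ‖grd u x‖ ^ 2 := (grd_memLp u).norm.integrable_sq
  have i3 : Integrable fun x => ‖grd w x‖ ^ 2 := (grd_memLp w).norm.integrable_sq
  have h1 : ∫ x, ‖grd w x‖ ^ 2 ≤
      ∫ x, (2 * (F x * F x * val u x * val u x) + 2 * c ^ 2 * ‖grd u x‖ ^ 2) := by
    refine integral_mono_ae i3 ((i1.const_mul 2).add (i2.const_mul _)) ?_
    filter_upwards [h, hF] with x hx hx'
    rw [hx, hx']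
    have a1 := norm_add_le (val u x • gradient ρ x) (ρ x • grd u x)
    rw [norm_smul, norm_smul, Real.norm_eq_abs, Real.norm_eq_abs] at a1
    have a2 : |ρ x| * ‖grd u x‖ ≤ c * ‖grd u x‖ :=
      mul_le_mul_of_nonneg_right (hc x) (norm_nonneg _)
    have a3 := pow_le_pow_left₀ (norm_nonneg _) (a1.trans (add_le_add_right a2 _)) 2
    have a4 : (|val u x| * ‖gradient ρ x‖) ^ 2 =
        ‖gradient ρ x‖ * ‖gradient ρ x‖ * val u x * val u x := by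
      rw [mul_pow, sq_abs]
      ring
    nlinarith [sq_nonneg (|val u x| * ‖gradient ρ x‖ - c * ‖grd u x‖)]
  rw [integral_add (i1.const_mul 2) (i2.const_mul _), integral_const_mul, integral_const_mul,
    ← norm_sq_D, ← norm_sq_D] at h1
  have h2 : ∫ x, F x * F x * val u x * val u x ≤ ‖F‖ ^ 2 * ‖val u‖ ^ 2 := T4A_sq F (val u)
  have h3 : ‖val u‖ ^ 2 ≤ ‖u‖ ^ 2 / S0 := (le_div_iff₀' hS).2 (S0_le u)
  have h5 := mul_le_mul_of_nonneg_left h3 (sq_nonneg ‖F‖)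
  have h6 : ‖F‖ ^ 2 * (‖u‖ ^ 2 / S0) = ‖F‖ ^ 2 / S0 * ‖u‖ ^ 2 := by ring
  nlinarith

theorem mul_H0' {Ω Ω' : Set E4} {u : D} (hu : u ∈ H0 Ω) {ρ : E4 → ℝ} (hρ : Mult ρ)
    (h : tsupport ρ ∩ Ω ⊆ Ω') : ∃ w ∈ H0 Ω', (∀ᵐ x, val w x = ρ x * val u x) ∧
      ∀ᵐ x, grd w x = val u x • gradient ρ x + ρ x • grd u x := by
  obtain ⟨w, -, hw1, hw2⟩ := mul_D u hρ (Or.inl hu)
  refine ⟨w, ?_, hw1, hw2⟩
  obtain ⟨K, hK⟩ := Md_bound hρ
  obtain ⟨f, hf, hf'⟩ := mem_H0_iff.1 hu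
  let g : ℕ → Tst := fun n =>
    ⟨fun x => ρ x * (f n : E4 → ℝ) x, hρ.1.mul (f n).2.1, (f n).2.2.mul_left⟩
  refine mem_H0_iff.2 ⟨g, fun n x hx => h ⟨tsupport_mul_subset_left hx,
    hf n (tsupport_mul_subset_right hx)⟩, ?_⟩
  have hb : ∀ n, ‖ofT (g n) - w‖ ^ 2 ≤ K * ‖ofT (f n) - u‖ ^ 2 := fun n => by
    refine hK _ _ ?_
    rw [map_sub]
    filter_upwards [hw2, grd_sub (ofT (g n)) w, grd_sub (ofT (f n)) u, grd_ofT (g n),
      grd_ofT (f n), val_ofT (f n), Lp.coeFn_sub (val (ofT (f n))) (val u)]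
      with x h1 h2 h3 h4 h5 h6 h7
    have e : gradient (g n : E4 → ℝ) x = _ := gradient_mul' hρ.1 (f n).2.1 x
    rw [h2, h3, h4, h5, h7, Pi.sub_apply, h6, h1, e]
    module
  have h0 : Tendsto (fun n => K * ‖ofT (f n) - u‖ ^ 2) atTop (𝓝 0) := by
    have := ((tendsto_iff_norm_sub_tendsto_zero.1 hf').pow 2).const_mul K
    simpa using this
  have h1 : Tendsto (fun n => ‖ofT (g n) - w‖ ^ 2) atTop (𝓝 0) :=
    squeeze_zero (fun n => sq_nonneg _) hb h0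
  refine tendsto_iff_norm_sub_tendsto_zero.2 ?_
  have h2 := h1.sqrt
  rw [Real.sqrt_zero] at h2
  exact h2.congr fun n => Real.sqrt_sq (norm_nonneg _)

end CritSys
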