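import Pool.Agent.Work.MP_80ee1d_an.Dich
import Pool.Agent.Work.MP_80ee1d_an.U.Md

-- merged part: Pool.Agent.Work.MP_80ee1d_an.U.Cutoff
section
/-!
A cut-off function with small `L⁴` gradient (points have zero `4`-capacity in `ℝ⁴`).

PLAN. Induction on `j`: there are `ρ' ∈ (0, ρ]` and a test `θ`, `= 1` on `ball P ρ'`, supported in
`ball P ρ`, with `∫ ‖∇θ‖⁴ ≤ c / 8^j` (start with a `ContDiffBump P`).  Step: with `L = ρ / ρ'`,
`θ₁ x = θ (P + L • (x - P))`, `θ' = (θ + θ₁) / 2` equals one on `ball P (ρ' / L)`.  The support of `θ₁`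
lies in `ball P ρ'`, where `∇θ = 0` (locally constant); `∇θ₁ x = L • ∇θ (P + L • (x - P))`, so
`∫ ‖∇θ₁‖⁴ = ∫ ‖∇θ‖⁴` (`Scale_int`, see `scale_tst`).  Pointwise
`‖∇θ'‖⁴ = (‖∇θ‖⁴ + ‖∇θ₁‖⁴) / 16` since one of the two vanishes (`gradient_eq_zero_of_notMem`).
-/

open MeasureTheory Filter Topology Metric
open scoped ContDiff RealInnerProductSpace ENNReal

noncomputable section
namespace CritSys

theorem Cutoff_mem {δ : ℝ} (hδ : 0 < δ) (P x : E4) (r : ℝ) :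
    P + δ⁻¹ • (x - P) ∈ ball P r ↔ x ∈ ball P (δ * r) := by
  rw [mem_ball_iff_norm, mem_ball_iff_norm, add_sub_cancel_left, norm_smul, Real.norm_eq_abs,
    abs_of_pos (inv_pos.2 hδ), inv_mul_lt_iff₀ hδ]

theorem Cutoff_scale (f : Tst) {δ : ℝ} (hδ : 0 < δ) (P : E4) : ∃ g : Tst,
    (∀ x, (g : E4 → ℝ) x = (f : E4 → ℝ) (P + δ⁻¹ • (x - P))) ∧
    (∀ r : ℝ, tsupport (f : E4 → ℝ) ⊆ ball P r → tsupport (g : E4 → ℝ) ⊆ ball P (δ * r)) ∧
    ∫ x, ‖gradient (g : E4 → ℝ) x‖ ^ 4 = ∫ x, ‖gradient (f : E4 → ℝ) x‖ ^ 4 := by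
  obtain ⟨f, hf, hc⟩ := f
  let T : E4 ≃ₜ E4 := ((Homeomorph.subRight P).trans
    (Homeomorph.smulOfNeZero δ⁻¹ (inv_pos.2 hδ).ne')).trans (Homeomorph.addLeft P)
  have hs : ContDiff ℝ ∞ fun x : E4 => P + δ⁻¹ • (x - P) :=
    contDiff_const.add ((contDiff_id.sub contDiff_const).const_smul _)
  have hcs : HasCompactSupport fun x => f (P + δ⁻¹ • (x - P)) := hc.comp_homeomorph T
  have hd : δ⁻¹ ^ 4 * δ ^ 4 = 1 := by field_simp
  refine ⟨⟨fun x => f (P + δ⁻¹ • (x - P)), hf.comp hs, hcs⟩, fun _ => rfl, fun r hr x hx => ?_, ?_⟩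
  · have h1 : x ∈ tsupport (f ∘ T) := hx
    rw [tsupport_comp_eq_preimage f T] at h1
    exact (Cutoff_mem hδ P x r).1 (hr h1)
  · have e : ∀ x, ‖gradient (fun x => f (P + δ⁻¹ • (x - P))) x‖ ^ 4 =
        δ⁻¹ ^ 4 * ‖gradient f (P + δ⁻¹ • (x - P))‖ ^ 4 := fun x => by
      have a1 : HasFDerivAt (fun x : E4 => P + δ⁻¹ • (x - P))
          (δ⁻¹ • ContinuousLinearMap.id ℝ E4) x :=
        (((hasFDerivAt_id (𝕜 := ℝ) x).sub_const P).const_smul δ⁻¹).const_add P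
      have a2 := ((hf.differentiable (by simp)) (P + δ⁻¹ • (x - P))).hasFDerivAt.comp x a1
      rw [norm_gradient, norm_gradient]
      have a3 := a2.fderiv
      simp only [Function.comp_def] at a3
      rw [a3, ContinuousLinearMap.comp_smul, ContinuousLinearMap.comp_id, norm_smul,
        Real.norm_eq_abs, abs_of_pos (inv_pos.2 hδ)]
      ring
    simp only [e]
    rw [integral_const_mul, Scale_int (fun x => ‖gradient f (P + x)‖ ^ 4) hδ, ← mul_assoc, hd,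
      one_mul, integral_add_left_eq_self (fun x => ‖gradient f x‖ ^ 4) P]

theorem Cutoff_int (f : Tst) : Integrable fun x => ‖gradient (f : E4 → ℝ) x‖ ^ 4 := by
  refine ((continuous_gradient f.2.1).norm.pow 4).integrable_of_hasCompactSupport ?_
  refine HasCompactSupport.intro f.2.2 fun x hx => ?_
  simp [gradient_eq_zero_of_notMem hx]

theorem Cutoff_step (P : E4) {ρ ρ' : ℝ} (h0 : 0 < ρ') (h1 : ρ' ≤ ρ) (θ : Tst)
    (hθ : ∀ x ∈ ball P ρ', (θ : E4 → ℝ) x = 1) (hs : tsupport (θ : E4 → ℝ) ⊆ ball P ρ) :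
    ∃ (ρ'' : ℝ) (θ' : Tst), 0 < ρ'' ∧ ρ'' ≤ ρ ∧ (∀ x ∈ ball P ρ'', (θ' : E4 → ℝ) x = 1) ∧
      tsupport (θ' : E4 → ℝ) ⊆ ball P ρ ∧
      ∫ x, ‖gradient (θ' : E4 → ℝ) x‖ ^ 4 = (∫ x, ‖gradient (θ : E4 → ℝ) x‖ ^ 4) / 8 := by
  have hρ : 0 < ρ := h0.trans_le h1
  have hδ : 0 < ρ' / ρ := div_pos h0 hρ
  have hδ1 : ρ' / ρ ≤ 1 := (div_le_one hρ).2 h1
  obtain ⟨g, g1, g2, g3⟩ := Cutoff_scale θ hδ P
  have g4 : tsupport (g : E4 → ℝ) ⊆ ball P ρ' := by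
    have := g2 ρ hs
    rwa [div_mul_cancel₀ _ hρ.ne'] at this
  have hle : ρ' / ρ * ρ' ≤ ρ' := by linarith only [h0, hδ1, mul_nonneg_of_nonpos_of_nonpos (le_of_lt (Mathlib.Tactic.Linarith.sub_neg_of_lt h0)) (Mathlib.Tactic.Linarith.sub_nonpos_of_le hδ1)]
  refine ⟨ρ' / ρ * ρ', (1 / 2 : ℝ) • (θ + g), mul_pos hδ h0, hle.trans h1, fun x hx => ?_, ?_, ?_⟩
  · have a1 : (θ : E4 → ℝ) x = 1 := hθ x (ball_subset_ball hle hx)
    have a2 : (g : E4 → ℝ) x = 1 := by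
      rw [g1]
      exact hθ _ ((Cutoff_mem hδ P x ρ').2 hx)
    rw [Submodule.coe_smul, Submodule.coe_add, Pi.smul_apply, Pi.add_apply, a1, a2]
    norm_num
  · exact (TstIn (ball P ρ)).smul_mem _ ((TstIn (ball P ρ)).add_mem hs
      (g4.trans (ball_subset_ball h1)))
  · have e : ∀ x, ‖gradient ((((1 / 2 : ℝ) • (θ + g) : Tst)) : E4 → ℝ) x‖ ^ 4 =
        1 / 16 * (‖gradient (θ : E4 → ℝ) x‖ ^ 4 + ‖gradient (g : E4 → ℝ) x‖ ^ 4) := fun x => by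
      rw [tst_gradient_smul, tst_gradient_add, Pi.smul_apply, Pi.add_apply, norm_smul]
      by_cases hx : x ∈ ball P ρ'
      · have a1 : gradient (θ : E4 → ℝ) x = 0 := by
          have a2 : (θ : E4 → ℝ) =ᶠ[𝓝 x] fun _ => 1 :=
            Filter.eventually_of_mem (isOpen_ball.mem_nhds hx) hθ
          rw [gradient, a2.fderiv_eq]
          simp
        rw [a1]
        norm_num
        ring
      · rw [gradient_eq_zero_of_notMem fun h => hx (g4 h)]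
        norm_num
        ring
    simp only [e]
    rw [integral_const_mul, integral_add (Cutoff_int θ) (Cutoff_int g), g3]
    ring

theorem Cutoff_iter (P : E4) {ρ : ℝ} (hρ : 0 < ρ) : ∃ c : ℝ, ∀ j : ℕ, ∃ (ρ' : ℝ) (θ : Tst),
    0 < ρ' ∧ ρ' ≤ ρ ∧ (∀ x ∈ ball P ρ', (θ : E4 → ℝ) x = 1) ∧ tsupport (θ : E4 → ℝ) ⊆ ball P ρ ∧
      ∫ x, ‖gradient (θ : E4 → ℝ) x‖ ^ 4 = c * (1 / 8) ^ j := by
  let b : ContDiffBump P := ⟨ρ / 4, ρ / 2, by positivity, by linarith only [hρ]⟩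
  let θ₀ : Tst := ⟨b, b.contDiff, b.hasCompactSupport⟩
  refine ⟨∫ x, ‖gradient (θ₀ : E4 → ℝ) x‖ ^ 4, fun j => ?_⟩
  induction j with
  | zero =>
    refine ⟨ρ / 4, θ₀, by positivity, by linarith only [hρ], fun x hx => ?_, ?_, by simp⟩
    · exact b.one_of_mem_closedBall (ball_subset_closedBall hx)
    · show tsupport (b : E4 → ℝ) ⊆ ball P ρ
      rw [b.tsupport_eq]
      exact closedBall_subset_ball (half_lt_self hρ)
  | succ j ih =>
    obtain ⟨ρ', θ, h0, h1, h2, h3, h4⟩ := ih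
    obtain ⟨ρ'', θ', k0, k1, k2, k3, k4⟩ := Cutoff_step P h0 h1 θ h2 h3
    refine ⟨ρ'', θ', k0, k1, k2, k3, ?_⟩
    rw [k4, h4]
    ring

theorem cutoff_small (P : E4) {ρ ζ : ℝ} (hρ : 0 < ρ) (hζ : 0 < ζ) : ∃ (ρ' : ℝ) (θ : Tst), 0 < ρ' ∧
    (∀ x ∈ ball P ρ', (θ : E4 → ℝ) x = 1) ∧ tsupport (θ : E4 → ℝ) ⊆ ball P ρ ∧
    ∫ x, ‖gradient (θ : E4 → ℝ) x‖ ^ 4 ≤ ζ := by
  obtain ⟨c, hc⟩ := Cutoff_iter P hρ
  have h1 : Tendsto (fun j : ℕ => c * (1 / 8 : ℝ) ^ j) atTop (𝓝 (c * 0)) :=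
    (tendsto_pow_atTop_nhds_zero_of_lt_one (by norm_num) (by norm_num)).const_mul c
  rw [mul_zero] at h1
  obtain ⟨j, hj⟩ := (h1.eventually (gt_mem_nhds hζ)).exists
  obtain ⟨ρ', θ, h0, -, h2, h3, h4⟩ := hc j
  exact ⟨ρ', θ, h0, h2, h3, by rw [h4]; exact hj.le⟩

end CritSys
end
end

-- merged part: Pool.Agent.Work.MP_80ee1d_an.U.Split
section
/-!
Localisation in a domain made of two parts joined by a thin neck.

PLAN. `split_pt` (see `dich_split` in `Dich.lean` for a model): `χ = sin (π θ / 2)`,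
`ψ = cos (π θ / 2)` are multipliers (`dich_mult`), `ψ = 0` on `ball P ρ'`.  `Lim_bump` gives tests `b₁`, `b₂`
with `b₁ = 1` on the compact set `closure Ω ∩ {x 3 ≤ P 3 - ρ}`, supported in `{x 3 < P 3}`, and
symmetrically.  `ψ₁ = ψ b₁`, `ψ₂ = ψ b₂` (`Mult.mul`, `Mult.of_tst`).  `tsupport ψ₁ ∩ Ω ⊆ Ω₁`: the support
misses the open ball and lies in `{x 3 < P 3}`.  Near a point `x ∈ Ω` one has `(ψ₁, ψ₂) = (ψ, 0)`, `(0, ψ)`
or `ψ₁ = ψ₂ = ψ = 0` (`EventuallyEq.gradient_eq`).  `mul_H0'`, `mul_D`, `H0_zero_outside`, `norm_sq_D`,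
`dich_norm`, `gradient_comp'`; `F = (π / 2) ‖∇θ‖`.
`split`: `small_ball` for `κ` gives `ρ''`, `cutoff_small` gives `ρ'`, `θ` with `‖F‖² ≤ ζ S0`
(`T4A_sq`, `S0_le`); `choose!` the three maps.  The other fields are pointwise inequalities
(`integral_mono_ae`, `T4_integrable`, `Md_int`, `norm_val_pow`): with `a = ψ₁² + ψ₂²`, `a + χ² = 1`,
`ψ₁⁴ + ψ₂⁴ = a² ≤ 1` and `1 = a² + χ² (1 + a) ≤ a² + 2 χ²`, and
`∫ χ² u² v² = T4 (W u) (W u) v v ≤ ‖val (W u)‖² ‖val v‖²`.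
-/

open MeasureTheory Filter Topology Metric
open scoped ContDiff RealInnerProductSpace ENNReal

noncomputable section
namespace CritSys

theorem Split_half {Ω U V : Set E4} (ho : IsOpen Ω) (hb : Bornology.IsBounded Ω) (hU : IsOpen U)
    (hV : IsClosed V) (hVU : V ⊆ U) {ψ : E4 → ℝ} (hψ : Mult ψ) : ∃ ψ₁ : E4 → ℝ, Mult ψ₁ ∧
      tsupport ψ₁ ⊆ tsupport ψ ∩ U ∧ ∀ x ∈ Ω, V ∈ 𝓝 x → ψ₁ =ᶠ[𝓝 x] ψ := by
  obtain ⟨b, hb1, hb2⟩ := Lim_bump hU (hb.isCompact_closure.inter_right hV)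
    (Set.inter_subset_right.trans hVU)
  refine ⟨fun x => ψ x * (b : E4 → ℝ) x, hψ.mul (Mult.of_tst b), Set.subset_inter
    tsupport_mul_subset_left (tsupport_mul_subset_right.trans hb1), fun x hx hV' => ?_⟩
  filter_upwards [ho.mem_nhds hx, hV'] with y h1 h2
  rw [hb2 y ⟨subset_closure h1, h2⟩, mul_one]

theorem split_pt {Ω Ω₁ Ω₂ : Set E4} (ho : IsOpen Ω) (hb : Bornology.IsBounded Ω) {P : E4}
    {ρ ρ' : ℝ} (hρ : 0 < ρ) (θ : Tst) (hθ : ∀ x ∈ ball P ρ', (θ : E4 → ℝ) x = 1)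
    (h : ∀ x ∈ Ω, x ∉ ball P ρ' → (x 3 < P 3 - ρ ∧ x ∈ Ω₁) ∨ (P 3 + ρ < x 3 ∧ x ∈ Ω₂)) :
    ∃ (F : L4 (volume : Measure E4)) (χ ψ₁ ψ₂ : E4 → ℝ),
      ‖F‖ ^ 4 = (Real.pi / 2) ^ 4 * ∫ x, ‖gradient (θ : E4 → ℝ) x‖ ^ 4 ∧
      (∀ x, (θ : E4 → ℝ) x = 0 → χ x = 0) ∧
      (∀ x ∈ Ω, ψ₁ x * ψ₂ x = 0 ∧ ψ₁ x ^ 2 + ψ₂ x ^ 2 + χ x ^ 2 = 1) ∧
      ∀ u ∈ H0 Ω, ∃ u₁ ∈ H0 Ω₁, ∃ u₂ ∈ H0 Ω₂, ∃ w : D, (∀ᵐ x, val u₁ x = ψ₁ x * val u x) ∧
        (∀ᵐ x, val u₂ x = ψ₂ x * val u x) ∧ (∀ᵐ x, val w x = χ x * val u x) ∧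
        ‖u₁‖ ^ 2 + ‖u₂‖ ^ 2 + ‖w‖ ^ 2 = ‖u‖ ^ 2 + T4 (val u) (val u) F F := by
  set c : ℝ := Real.pi / 2 with hc
  have hc0 : 0 ≤ c := by positivity
  have hS : ContDiff ℝ ∞ fun t : ℝ => Real.sin (c * t) := by fun_prop
  have hC : ContDiff ℝ ∞ fun t : ℝ => Real.cos (c * t) := by fun_prop
  have dS : ∀ t, deriv (fun t : ℝ => Real.sin (c * t)) t = c * Real.cos (c * t) := fun t => by
    simp [mul_comm]
  have dC : ∀ t, deriv (fun t : ℝ => Real.cos (c * t)) t = -(c * Real.sin (c * t)) := fun t => by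
    simp [mul_comm]
  have mS : Mult fun x => Real.sin (c * (θ : E4 → ℝ) x) :=
    dich_mult θ hS (fun t => Real.abs_sin_le_one _) (c := c) fun t => by
      rw [dS, abs_mul, abs_of_nonneg hc0]
      exact mul_le_of_le_one_right hc0 (Real.abs_cos_le_one _)
  have mC : Mult fun x => Real.cos (c * (θ : E4 → ℝ) x) :=
    dich_mult θ hC (fun t => Real.abs_cos_le_one _) (c := c) fun t => by
      rw [dC, abs_neg, abs_mul, abs_of_nonneg hc0]
      exact mul_le_of_le_one_right hc0 (Real.abs_sin_le_one _)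
  have hF : MemLp (fun x => c * ‖gradient (θ : E4 → ℝ) x‖) 4 volume :=
    (tst_memLp_grad θ 4).norm.const_mul c
  have c3 : Continuous fun x : E4 => x 3 := by fun_prop
  obtain ⟨ψ₁, m1, s1, l1⟩ := Split_half (U := {x | x 3 < P 3}) (V := {x | x 3 ≤ P 3 - ρ}) ho hb
    (isOpen_lt c3 continuous_const) (isClosed_le c3 continuous_const)
    (fun x hx => lt_of_le_of_lt hx (show P 3 - ρ < P 3 by linarith only [hρ])) mC
  obtain ⟨ψ₂, m2, s2, l2⟩ := Split_half (U := {x | P 3 < x 3}) (V := {x | P 3 + ρ ≤ x 3}) ho hb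
    (isOpen_lt continuous_const c3) (isClosed_le continuous_const c3)
    (fun x hx => lt_of_lt_of_le (show P 3 < P 3 + ρ by linarith) hx) mC
  have hball : ∀ x ∈ ball P ρ', x ∉ tsupport fun x => Real.cos (c * (θ : E4 → ℝ) x) := by
    intro x hx
    rw [notMem_tsupport_iff_eventuallyEq]
    filter_upwards [isOpen_ball.mem_nhds hx] with y hy
    simp [hθ y hy, hc]
  have loc : ∀ x ∈ Ω, (ψ₁ =ᶠ[𝓝 x] (fun x => Real.cos (c * (θ : E4 → ℝ) x)) ∧ ψ₂ =ᶠ[𝓝 x] 0) ∨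
      (ψ₁ =ᶠ[𝓝 x] 0 ∧ ψ₂ =ᶠ[𝓝 x] fun x => Real.cos (c * (θ : E4 → ℝ) x)) := by
    intro x hx
    by_cases hxb : x ∈ ball P ρ'
    · have e0 := notMem_tsupport_iff_eventuallyEq.1 (hball x hxb)
      have e1 := notMem_tsupport_iff_eventuallyEq.1 fun h' => hball x hxb (s1 h').1
      have e2 := notMem_tsupport_iff_eventuallyEq.1 fun h' => hball x hxb (s2 h').1
      exact Or.inl ⟨e1.trans e0.symm, e2⟩
    · rcases h x hx hxb with ⟨e, -⟩ | ⟨e, -⟩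
      · refine Or.inl ⟨l1 x hx (mem_of_superset ((isOpen_lt c3 continuous_const).mem_nhds e)
          fun y (hy : y 3 < P 3 - ρ) => hy.le), notMem_tsupport_iff_eventuallyEq.1 fun h' => ?_⟩
        have : P 3 < x 3 := (s2 h').2
        linarith only [hρ, e, this]
      · refine Or.inr ⟨notMem_tsupport_iff_eventuallyEq.1 fun h' => ?_, l2 x hx
          (mem_of_superset ((isOpen_lt continuous_const c3).mem_nhds e)
            fun y (hy : P 3 + ρ < y 3) => hy.le)⟩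
        have : x 3 < P 3 := (s1 h').2
        linarith
  have t1 : tsupport ψ₁ ∩ Ω ⊆ Ω₁ := fun x hx => by
    rcases h x hx.2 fun hxb => hball x hxb (s1 hx.1).1 with ⟨-, e⟩ | ⟨e, -⟩
    · exact e
    · have : x 3 < P 3 := (s1 hx.1).2
      linarith
  have t2 : tsupport ψ₂ ∩ Ω ⊆ Ω₂ := fun x hx => by
    rcases h x hx.2 fun hxb => hball x hxb (s2 hx.1).1 with ⟨e, -⟩ | ⟨-, e⟩
    · have : P 3 < x 3 := (s2 hx.1).2
      linarith
    · exact e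
  refine ⟨hF.toLp _, fun x => Real.sin (c * (θ : E4 → ℝ) x), ψ₁, ψ₂, ?_, fun x hx => by simp [hx],
    fun x hx => ?_, fun u hu => ?_⟩
  · rw [← T4_self, T4, ← integral_const_mul]
    refine integral_congr_ae ?_
    filter_upwards [hF.coeFn_toLp] with x e
    rw [e]; ring
  · have := Real.sin_sq_add_cos_sq (c * (θ : E4 → ℝ) x)
    rcases loc x hx with ⟨e1, e2⟩ | ⟨e1, e2⟩ <;> rw [e1.eq_of_nhds, e2.eq_of_nhds] <;>
      simp only [Pi.zero_apply] <;> exact ⟨by ring, by linarith only [this]⟩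
  · obtain ⟨u₁, k1, v1, g1⟩ := mul_H0' hu m1 t1
    obtain ⟨u₂, k2, v2, g2⟩ := mul_H0' hu m2 t2
    obtain ⟨w, -, v3, g3⟩ := mul_D u mS (Ω := Set.univ) (Or.inl (mem_H0_univ u))
    refine ⟨u₁, k1, u₂, k2, w, v1, v2, v3, ?_⟩
    have ig : ∀ u : D, Integrable (fun x => ‖grd u x‖ ^ 2) := fun u =>
      (memLp_two_iff_integrable_sq_norm (grd_memLp u).1).1 (grd_memLp u)
    have i12 : Integrable fun x => ‖grd u₁ x‖ ^ 2 + ‖grd u₂ x‖ ^ 2 := (ig u₁).add (ig u₂)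
    rw [norm_sq_D, norm_sq_D, norm_sq_D, norm_sq_D, T4, ← integral_add (ig u₁) (ig u₂),
      ← integral_add i12 (ig w), ← integral_add (ig u) (T4_integrable _ _ _ _)]
    refine integral_congr_ae ?_
    filter_upwards [g1, g2, g3, hF.coeFn_toLp, H0_zero_outside hu] with x e1 e2 e3 e4 e5
    rw [e1, e2, e3, e4]
    by_cases hx : x ∈ Ω
    · have z0 : gradient (0 : E4 → ℝ) x = 0 := gradient_const x 0
      rcases loc x hx with ⟨f1, f2⟩ | ⟨f1, f2⟩ <;>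
        rw [f1.eq_of_nhds, f2.eq_of_nhds, f1.gradient_eq, f2.gradient_eq, z0,
          gradient_comp' hS θ.2.1, gradient_comp' hC θ.2.1, dS, dC, smul_smul, smul_smul] <;>
        simp only [Pi.zero_apply, smul_zero, zero_smul, add_zero, norm_zero] <;>
        rw [dich_norm, dich_norm] <;>
        linear_combination (‖grd u x‖ ^ 2 + val u x ^ 2 * c ^ 2 *
          ‖gradient (θ : E4 → ℝ) x‖ ^ 2) * Real.sin_sq_add_cos_sq (c * (θ : E4 → ℝ) x)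
    · rw [(e5 hx).1, (e5 hx).2]
      simp

/-- The three parts of a function. -/
structure SplitP (Ω Ω₁ Ω₂ : Set E4) (ζ κ : ℝ) (A B W : D → D) : Prop where
  memA : ∀ u ∈ H0 Ω, A u ∈ H0 Ω₁
  memB : ∀ u ∈ H0 Ω, B u ∈ H0 Ω₂
  lo : ∀ u ∈ H0 Ω, ‖u‖ ^ 2 ≤ ‖A u‖ ^ 2 + ‖B u‖ ^ 2 + ‖W u‖ ^ 2
  hi : ∀ u ∈ H0 Ω, ‖A u‖ ^ 2 + ‖B u‖ ^ 2 + ‖W u‖ ^ 2 ≤ (1 + ζ) * ‖u‖ ^ 2
  md : ∀ u ∈ H0 Ω, Md (A u) + Md (B u) + Md (W u) = Md u
  four : ∀ u ∈ H0 Ω, ‖val (A u)‖ ^ 4 + ‖val (B u)‖ ^ 4 ≤ ‖val u‖ ^ 4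
  mix : ∀ u ∈ H0 Ω, ∀ v ∈ H0 Ω, T4 (val u) (val u) (val v) (val v) ≤
    T4 (val (A u)) (val (A u)) (val (A v)) (val (A v)) +
      T4 (val (B u)) (val (B u)) (val (B v)) (val (B v)) +
      ‖val (W u)‖ ^ 2 * ‖val v‖ ^ 2 + ‖val u‖ ^ 2 * ‖val (W v)‖ ^ 2
  neck : ∀ u ∈ H0 Ω, Md (W u) ≤ κ * ‖W u‖ ^ 2

theorem Split_int {a b : L4 (volume : Measure E4)} (hb : Integrable fun x => b x ^ 2)
    (h : ∀ᵐ x, a x ^ 2 ≤ b x ^ 2) : Integrable fun x => a x ^ 2 :=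
  hb.mono' ((Lp.aestronglyMeasurable a).pow 2) (h.mono fun x hx => by
    rwa [Real.norm_eq_abs, abs_of_nonneg (sq_nonneg _)])

theorem split (P : E4) {ζ κ : ℝ} (hζ : 0 < ζ) (hκ : 0 < κ) : ∃ ρ' : ℝ, 0 < ρ' ∧
    ∀ (Ω Ω₁ Ω₂ : Set E4) (ρ : ℝ), IsOpen Ω → Bornology.IsBounded Ω → 0 < ρ →
      (∀ x ∈ Ω, x ∉ ball P ρ' → (x 3 < P 3 - ρ ∧ x ∈ Ω₁) ∨ (P 3 + ρ < x 3 ∧ x ∈ Ω₂)) →
      ∃ A B W, SplitP Ω Ω₁ Ω₂ ζ κ A B W := by
  obtain ⟨ρ'', h'', hsm⟩ := small_ball hκ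
  have hS := S0_pos
  have hpi : 0 < (Real.pi / 2) ^ 4 := by positivity
  obtain ⟨ρ', θ, h', hθ, hsup, hint⟩ :=
    cutoff_small P h'' (ζ := (ζ * S0) ^ 2 / (Real.pi / 2) ^ 4) (by positivity)
  refine ⟨ρ', h', fun Ω Ω₁ Ω₂ ρ ho hb hρ h => ?_⟩
  obtain ⟨F, χ, ψ₁, ψ₂, hF, hχ, hpt, hu⟩ := split_pt ho hb hρ θ hθ h
  choose! A hA B hB W vA vB vW hE using hu
  have hF2 : ‖F‖ ^ 2 ≤ ζ * S0 := by
    refine (abs_le_of_sq_le_sq' ?_ (by positivity)).2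
    rw [← pow_mul, hF, mul_comm, ← le_div_iff₀ hpi]
    exact hint
  have pt : ∀ u ∈ H0 Ω, ∀ᵐ x, val (A u) x ^ 2 + val (B u) x ^ 2 + val (W u) x ^ 2 = val u x ^ 2 ∧
      val (A u) x * val (B u) x = 0 := fun u hu => by
    filter_upwards [vA u hu, vB u hu, vW u hu, H0_zero_outside hu] with x e1 e2 e3 e4
    rw [e1, e2, e3]
    by_cases hx : x ∈ Ω
    · exact ⟨by linear_combination val u x ^ 2 * (hpt x hx).2,
        by linear_combination val u x ^ 2 * (hpt x hx).1⟩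
    · simp [(e4 hx).1]
  refine ⟨A, B, W, hA, hB, fun u hu => ?_, fun u hu => ?_, fun u hu => ?_, fun u hu => ?_,
    fun u hu v hv => ?_, fun u hu => hsm P _ ?_⟩
  · rw [hE u hu]
    exact le_add_of_nonneg_right (T4_sq_nonneg _ _)
  · rw [hE u hu]
    have k1 := T4A_sq (val u) F
    have k2 := mul_le_mul_of_nonneg_left hF2 (sq_nonneg ‖val u‖)
    have k3 := mul_le_mul_of_nonneg_left (S0_le u) hζ.le
    linarith only [k1, k2, k3]
  · have i0 := Md_int hb hu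
    have iA : Integrable fun x => val (A u) x ^ 2 := Split_int i0 ((pt u hu).mono fun x hx => by
      nlinarith only [hx, sq_nonneg (val (B u) x), sq_nonneg (val (W u) x), hx.1])
    have iB : Integrable fun x => val (B u) x ^ 2 := Split_int i0 ((pt u hu).mono fun x hx => by
      nlinarith only [hx, sq_nonneg (val (A u) x), sq_nonneg (val (W u) x), hx.1])
    have iW : Integrable fun x => val (W u) x ^ 2 := Split_int i0 ((pt u hu).mono fun x hx => by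
      nlinarith only [hx, sq_nonneg (val (A u) x), sq_nonneg (val (B u) x), hx.1])
    have iAB : Integrable fun x => val (A u) x ^ 2 + val (B u) x ^ 2 := iA.add iB
    rw [Md, Md, Md, Md, ← integral_add iA iB, ← integral_add iAB iW]
    exact integral_congr_ae ((pt u hu).mono fun x hx => hx.1)
  · rw [← T4_self, ← T4_self, ← T4_self, T4, T4, T4,
      ← integral_add (T4_integrable _ _ _ _) (T4_integrable _ _ _ _)]
    refine integral_mono_ae ((T4_integrable _ _ _ _).add (T4_integrable _ _ _ _))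
      (T4_integrable _ _ _ _) ((pt u hu).mono fun x hx => ?_)
    have k1 : val (A u) x ^ 2 + val (B u) x ^ 2 ≤ val u x ^ 2 := by
      nlinarith only [hx, sq_nonneg (val (W u) x), hx.1]
    have k2 := pow_le_pow_left₀ (by positivity) k1 2
    simp only
    nlinarith only [k2, mul_nonneg (sq_nonneg (val (A u) x)) (sq_nonneg (val (B u) x))]
  · have k1 := T4A_sq (val (W u)) (val v)
    have k2 := T4A_sq (val u) (val (W v))
    have i1 := T4_integrable (val (A u)) (val (A u)) (val (A v)) (val (A v))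
    have i2 := T4_integrable (val (B u)) (val (B u)) (val (B v)) (val (B v))
    have i3 := T4_integrable (val (W u)) (val (W u)) (val v) (val v)
    have i4 := T4_integrable (val u) (val u) (val (W v)) (val (W v))
    have k3 := integral_mono_ae (T4_integrable (val u) (val u) (val v) (val v))
      (((i1.add i2).add i3).add i4) (by
        filter_upwards [vA u hu, vB u hu, vW u hu, vA v hv, vB v hv, vW v hv, H0_zero_outside hu]
          with x e1 e2 e3 f1 f2 f3 e4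
        simp only [Pi.add_apply]
        rw [e1, e2, e3, f1, f2, f3]
        by_cases hx : x ∈ Ω
        · obtain ⟨g1, g2⟩ := hpt x hx
          have g3 : 1 ≤ ψ₁ x ^ 4 + ψ₂ x ^ 4 + 2 * χ x ^ 2 := by
            have g4 : ψ₁ x ^ 4 + ψ₂ x ^ 4 = (1 - χ x ^ 2) ^ 2 := by
              linear_combination (ψ₁ x ^ 2 + ψ₂ x ^ 2 + 1 - χ x ^ 2) * g2 - 2 * ψ₁ x * ψ₂ x * g1
            linarith only [g4, sq_nonneg (χ x ^ 2), sq_nonneg (χ x ^ (2 : ℕ))]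
          nlinarith only [g3, mul_le_mul_of_nonneg_right g3 (sq_nonneg (val u x * val v x))]
        · simp [(e4 hx).1])
    simp only [Pi.add_apply] at k3
    have i12 : Integrable fun x => val (A u) x * val (A u) x * val (A v) x * val (A v) x +
      val (B u) x * val (B u) x * val (B v) x * val (B v) x := i1.add i2
    have i123 : Integrable fun x => val (A u) x * val (A u) x * val (A v) x * val (A v) x +
      val (B u) x * val (B u) x * val (B v) x * val (B v) x +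
      val (W u) x * val (W u) x * val v x * val v x := i12.add i3
    rw [integral_add i123 i4, integral_add i12 i3, integral_add i1 i2] at k3
    unfold T4 at k1 k2 ⊢
    linarith only [k1, k2, k3]
  · filter_upwards [vW u hu] with x e hx
    rw [e, hχ x (image_eq_zero_of_notMem_tsupport fun h' => hx (hsup h')), zero_mul]

end CritSys
end
end
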