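import Pool.Agent.Work.MP_80ee1d_an.U.Chain
import Pool.Agent.Work.MP_80ee1d_an.U.Non
import Pool.Agent.Work.MP_80ee1d_an.U.Ex
import Pool.Agent.Work.MP_80ee1d_an.U.Param

/-! The set of couplings with a ground state can be prescribed on finite sets. -/

open MeasureTheory Filter Topology

namespace CritSys

theorem final_universal (μ₁ μ₂ : ℝ) (h1 : 0 < μ₁) (h2 : 0 < μ₂) (A B : Finset ℝ)
    (hA : ∀ a ∈ A, 0 < a ∧ (a < μ₂ ∨ μ₁ < a) ∧ a ^ 2 ≠ μ₁ * μ₂) (hB : ∀ b ∈ B, 0 < b)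
    (hAB : ∀ a ∈ A, ∀ b ∈ B, a ≠ b ∧ a * b ≠ μ₁ * μ₂) :
    ∃ (Ω : Set E4) (l₁ l₂ : ℝ), SmoothDomain Ω ∧ -lam1 Ω < l₁ ∧ l₁ < l₂ ∧ l₂ < 0 ∧
      (∀ a ∈ A, HasGroundState Ω l₁ l₂ μ₁ μ₂ a) ∧ ∀ b ∈ B, ¬ HasGroundState Ω l₁ l₂ μ₁ μ₂ b := by
  obtain ⟨T, r, k, hT, hs, eA, eB⟩ := param h1 h2 A B hA hB hAB
  have : Nonempty T := hT.to_subtype
  have fA : ∀ᶠ η in 𝓝[>] (0 : ℝ), ∀ a ∈ A, ∀ (d : Dom) (l1 l2 s : ℝ),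
      (ctx d).Wells l1 l2 s η r k → (ctx d).GS l1 l2 μ₁ μ₂ a := by
    refine (Finset.eventually_all A).2 fun a ha => ?_
    rcases eA a ha with ⟨i, y, h⟩ | ⟨i, h⟩
    · exact ex_low h1 h2 (hA a ha).1 hs h
    · exact ex_up h1 h2 (hA a ha).1 hs h
  have fB : ∀ᶠ η in 𝓝[>] (0 : ℝ), ∀ b ∈ B, ∀ (d : Dom) (l1 l2 s : ℝ),
      (ctx d).Wells l1 l2 s η r k → ¬ (ctx d).GS l1 l2 μ₁ μ₂ b := by
    refine (Finset.eventually_all B).2 fun b hb => ?_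
    rcases eB b hb with ⟨i, g, h⟩ | ⟨i, h⟩
    · exact non_low h1 h2 (hB b hb) hs h
    · exact non_up h1 h2 (hB b hb) hs h
  obtain ⟨η, ⟨gA, gB⟩, hη⟩ := ((fA.and fB).and self_mem_nhdsWithin).exists
  obtain ⟨d, l1, l2, s, hd, hW⟩ := wells_exist hs hη
  refine ⟨d.Ω, l1, l2, hd, ?_, hW.lt, hW.a2.2, fun a ha => ?_, fun b hb => ?_⟩
  · rw [lam1_eq]; exact hW.a1.1
  · exact (hasGS_iff hW.a1 hW.a2 _ _ _).2 (gA a ha d l1 l2 s hW)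
  · exact fun h => gB b hb d l1 l2 s hW ((hasGS_iff hW.a1 hW.a2 _ _ _).1 h)

end CritSys
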